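import Mathlib

/-!
Basic definitions for the near-Ramanujan towers: averages over signs, principal parts,
families of disjoint cycles, two-lifts.
-/

set_option autoImplicit false

namespace Pool.Agent.helper17.NR

variable {V : Type*} [Fintype V] [DecidableEq V]

/-- The symmetric matrix with entry one at `(u, v)` and `(v, u)` (for `u ≠ v`). -/
def T (u v : V) : Matrix V V ℝ := Matrix.single u v 1 + Matrix.single v u 1

/-- Average of `f` over all ways to subtract or add the matrices `T p.1 p.2`, `p ∈ L`. -/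
noncomputable def Av (f : Matrix V V ℝ → ℝ) : List (V × V) → Matrix V V ℝ → ℝ
  | [], N => f N
  | p :: L, N => (Av f L (N - T p.1 p.2) + Av f L (N + T p.1 p.2)) / 2

/-- `N'` arises from `N` by a choice of a sign for every member of the list. -/
def Reach : List (V × V) → Matrix V V ℝ → Matrix V V ℝ → Prop
  | [], N, N' => N' = N
  | p :: L, N, N' => Reach L (N - T p.1 p.2) N' ∨ Reach L (N + T p.1 p.2) N'

/-- The principal part of `N` on `H`, completed by ones on the diagonal outside `H`. -/
def K (H : Finset V) (N : Matrix V V ℝ) : Matrix V V ℝ :=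
  fun i j => if i ∈ H ∧ j ∈ H then N i j else if i = j then 1 else 0

/-- How often the unordered pair `{u, v}` occurs in `L`. -/
def cnt (L : List (V × V)) (u v : V) : ℕ := L.count (u, v) + L.count (v, u)

/-- The orbits of `σ` which are not points are cycles of `G` of length `k`, and every vertex is
on such a cycle or adjacent to one. -/
structure Cyc (G : SimpleGraph V) (k : ℕ) (σ : Equiv.Perm V) : Prop where
  adj : ∀ v, σ v ≠ v → G.Adj v (σ v)
  per : ∀ v, (σ ^ k) v = v
  mini : ∀ v, σ v ≠ v → ∀ j, 0 < j → j < k → (σ ^ j) v ≠ v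
  near : ∀ v, σ v = v → ∃ u, σ u ≠ u ∧ G.Adj v u

/-- The matrix of the fixed part: entry `ε u` at `(u, σ u)` and `(σ u, u)`. -/
def FM (σ : Equiv.Perm V) (ε : V → ℝ) : Matrix V V ℝ :=
  fun u w => if u = w then 0 else if σ u = w then ε u else if σ w = u then ε w else 0

/-- A number for every vertex. -/
noncomputable def key (v : V) : ℕ := (Fintype.equivFin V v : ℕ)

/-- The edges outside the fixed part, every edge once. -/
noncomputable def EL (G : SimpleGraph V) [DecidableRel G.Adj] (σ : Equiv.Perm V) : List (V × V) :=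
  (Finset.univ.filter fun p : V × V =>
    G.Adj p.1 p.2 ∧ σ p.1 ≠ p.2 ∧ σ p.2 ≠ p.1 ∧ key p.1 < key p.2).toList

/-- The sign of a Boolean. -/
def sg (b : Bool) : ℝ := if b then 1 else -1

/-- Signed adjacency matrix. -/
def SA (G : SimpleGraph V) [DecidableRel G.Adj] (s : V → V → Bool) : Matrix V V ℝ :=
  fun u v => if G.Adj u v then sg (s u v) else 0

/-- The two-lift of `G` given by the signs `s`. -/
def lift (G : SimpleGraph V) (s : V → V → Bool) (hs : ∀ u v, s u v = s v u) :
    SimpleGraph (V × Bool) where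
  Adj p r := G.Adj p.1 r.1 ∧ (s p.1 r.1 = true ↔ p.2 = r.2)
  symm := ⟨fun p r h => ⟨h.1.symm, by rw [hs]; exact h.2.trans eq_comm⟩⟩
  loopless := ⟨fun p h => G.loopless.irrefl _ h.1⟩

/-- `d`-regular connected bipartite graphs on `N` vertices with nontrivial spectrum in `[-L, L]`
and a family of `k`-cycles near every vertex. -/
def State (d k : ℕ) (L : ℝ) (N : ℕ) : Prop :=
  ∃ (V : Type) (_ : Fintype V) (_ : DecidableEq V) (G : SimpleGraph V) (_ : DecidableRel G.Adj)
    (col : V → Bool) (σ : Equiv.Perm V),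
    Fintype.card V = N ∧ G.Connected ∧ G.IsRegularOfDegree d ∧
    (∀ u v, G.Adj u v → col u ≠ col v) ∧ Cyc G k σ ∧
    ∀ μ : ℝ, (∃ f : V → ℝ, f ≠ 0 ∧ Matrix.mulVec (G.adjMatrix ℝ) f = μ • f) →
      |μ| = (d : ℝ) ∨ |μ| ≤ L

end Pool.Agent.helper17.NR
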