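import Mathlib
import Pool.Agent.helper17.NR.Defs

set_option autoImplicit false

namespace Pool.Agent.helper17.NR

variable {V : Type*} [Fintype V] [DecidableEq V]

theorem Bal_ne {σ : Equiv.Perm V} {u : V} (hu : σ u ≠ u) (j : ℕ) :
    σ ((σ ^ j) u) ≠ (σ ^ j) u := by
  intro h
  apply hu
  have h1 : (σ ^ j) (σ u) = (σ ^ j) u := by
    rw [← h, ← Equiv.Perm.mul_apply, ← Equiv.Perm.mul_apply, ← pow_succ, ← pow_succ']
  exact (σ ^ j).injective h1

theorem Bal_adj {G : SimpleGraph V} {k : ℕ} {σ : Equiv.Perm V} (hc : Cyc G k σ) {u : V}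
    (hu : σ u ≠ u) (j : ℕ) : G.Adj ((σ ^ j) u) ((σ ^ (j + 1)) u) := by
  have h := hc.adj _ (Bal_ne hu j)
  rwa [← Equiv.Perm.mul_apply, ← pow_succ'] at h

theorem Bal_dist {G : SimpleGraph V} {k : ℕ} {σ : Equiv.Perm V} (hc : Cyc G k σ)
    (hG : G.Connected) {u : V} (hu : σ u ≠ u) (j i : ℕ) :
    G.dist ((σ ^ j) u) ((σ ^ (j + i)) u) ≤ i := by
  induction i with
  | zero => simp
  | succ i ih =>
    have h1 := hG.dist_triangle (u := (σ ^ j) u) (v := (σ ^ (j + i)) u) (w := (σ ^ (j + i + 1)) u)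
    have h2 : G.dist ((σ ^ (j + i)) u) ((σ ^ (j + i + 1)) u) = 1 :=
      SimpleGraph.dist_eq_one_iff_adj.2 (Bal_adj hc hu (j + i))
    rw [← add_assoc]
    omega

/-- Balls of radius `k / 2 + 1` contain a cycle. -/
theorem ball_not_tree (G : SimpleGraph V) (k : ℕ) (hk : 3 ≤ k) (σ : Equiv.Perm V)
    (hc : Cyc G k σ) (hG : G.Connected) (v : V) (R : ℝ) (hR : (k : ℝ) / 2 + 1 ≤ R) :
    ¬ (G.induce {u : V | (G.dist v u : ℝ) ≤ R}).IsTree := by
  intro htree
  -- a vertex of a cycle near `v`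
  obtain ⟨u, hu, hvu⟩ : ∃ u, σ u ≠ u ∧ G.dist v u ≤ 1 := by
    by_cases h : σ v = v
    · obtain ⟨u, h1, h2⟩ := hc.near v h
      exact ⟨u, h1, (SimpleGraph.dist_eq_one_iff_adj.2 h2).le⟩
    · exact ⟨v, h, by simp⟩
  have hmem : ∀ j, j ≤ k → (σ ^ j) u ∈ {u : V | (G.dist v u : ℝ) ≤ R} := by
    intro j hj
    have h1 : G.dist u ((σ ^ j) u) ≤ j := by
      have := Bal_dist hc hG hu 0 j
      simpa using this
    have h2 : G.dist u ((σ ^ j) u) ≤ k - j := by
      have := Bal_dist hc hG hu j (k - j)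
      rw [Nat.add_sub_cancel' hj, hc.per] at this
      rwa [SimpleGraph.dist_comm]
    have h3 := hG.dist_triangle (u := v) (v := u) (w := (σ ^ j) u)
    have h4 : 2 * G.dist v ((σ ^ j) u) ≤ k + 2 := by omega
    have h5 : (2 : ℝ) * (G.dist v ((σ ^ j) u) : ℝ) ≤ k + 2 := by exact_mod_cast h4
    change (G.dist v ((σ ^ j) u) : ℝ) ≤ R
    linarith
  set H := G.induce {u : V | (G.dist v u : ℝ) ≤ R} with hH
  have hm0 := hmem 0 (by omega)
  have hm1 := hmem 1 (by omega)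
  have hadj : H.Adj ⟨(σ ^ 0) u, hm0⟩ ⟨(σ ^ 1) u, hm1⟩ := Bal_adj hc hu 0
  have hb := SimpleGraph.isAcyclic_iff_forall_adj_isBridge.1 htree.isAcyclic hadj
  rw [SimpleGraph.isBridge_iff] at hb
  apply hb
  -- powers are distinct
  have hinj : ∀ i j, i < j → j < k + i → (σ ^ i) u ≠ (σ ^ j) u := by
    intro i j hij hj h
    have h1 : (σ ^ i) ((σ ^ (j - i)) u) = (σ ^ i) u := by
      rw [← Equiv.Perm.mul_apply, ← pow_add, Nat.add_sub_cancel' hij.le, h]
    exact hc.mini u hu (j - i) (by omega) (by omega) ((σ ^ i).injective h1)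
  -- the other way around
  have hreach : ∀ j, 1 ≤ j → ∀ hj : j ≤ k,
      (H.deleteEdges {s(⟨(σ ^ 0) u, hm0⟩, ⟨(σ ^ 1) u, hm1⟩)}).Reachable
        ⟨(σ ^ 1) u, hm1⟩ ⟨(σ ^ j) u, hmem j hj⟩ := by
    intro j hj1
    induction j, hj1 using Nat.le_induction with
    | base =>
      intro _
      exact SimpleGraph.Reachable.refl _
    | succ j hj ih =>
      intro hjk
      refine (ih (by omega)).trans (SimpleGraph.Adj.reachable ?_)
      rw [SimpleGraph.deleteEdges_adj]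
      refine ⟨Bal_adj hc hu j, ?_⟩
      rw [Set.mem_singleton_iff, Sym2.eq_iff]
      rintro (⟨h1, -⟩ | ⟨h1, h2⟩)
      · exact hinj 0 j (by omega) (by omega) (congrArg Subtype.val h1).symm
      · have h3 : (σ ^ j) u = (σ ^ 1) u := congrArg Subtype.val h1
        have h4 : (σ ^ (j + 1)) u = (σ ^ 0) u := congrArg Subtype.val h2
        rcases Nat.lt_or_ge 1 j with h5 | h5
        · exact hinj 1 j h5 (by omega) h3.symm
        · have h6 : j = 1 := by omega
          subst h6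
          exact hinj 0 2 (by omega) (by omega) h4.symm
  have h1 := hreach k (by omega) le_rfl
  have h2 : (⟨(σ ^ k) u, hmem k le_rfl⟩ : {u : V | (G.dist v u : ℝ) ≤ R}) = ⟨(σ ^ 0) u, hm0⟩ := by
    apply Subtype.ext
    change (σ ^ k) u = (σ ^ 0) u
    rw [hc.per, pow_zero, Equiv.Perm.one_apply]
  rw [h2] at h1
  exact h1.symm

end Pool.Agent.helper17.NR
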