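import Mathlib
import Pool.Agent.helper17.NR.Defs

/-!
The positivity of the expected determinant from its recursion.
-/

set_option autoImplicit false
set_option linter.unusedSectionVars false

namespace Pool.Agent.helper17.NR

variable {V : Type*} [Fintype V] [DecidableEq V]

theorem Core_ne {k : ℕ} {G : SimpleGraph V} {σ : Equiv.Perm V} (hc : Cyc G k σ) (v : V)
    (hv : σ v ≠ v) (i j : ℕ) (hij : i < j) (hj : j < k) : (σ ^ i) v ≠ (σ ^ j) v := by
  intro h
  have h1 : (σ ^ (j - i)) v = v := by
    have h2 : (σ ^ i) ((σ ^ (j - i)) v) = (σ ^ i) v := by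
      rw [← Equiv.Perm.mul_apply, ← pow_add, Nat.add_sub_cancel' hij.le]
      exact h.symm
    exact (σ ^ i).injective h2
  exact hc.mini v hv (j - i) (by omega) (by omega) h1

theorem Core_moved {σ : Equiv.Perm V} (v : V) (hv : σ v ≠ v) (i : ℕ) :
    σ ((σ ^ i) v) ≠ (σ ^ i) v := by
  intro h
  apply hv
  have h2 : (σ ^ i) (σ v) = (σ ^ i) v := by
    rw [← Equiv.Perm.mul_apply, ← pow_succ, pow_succ', Equiv.Perm.mul_apply]
    exact h
  exact (σ ^ i).injective h2

theorem Core_succ {σ : Equiv.Perm V} (v : V) (i : ℕ) : (σ ^ (i + 1)) v = σ ((σ ^ i) v) := by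
  rw [pow_succ', Equiv.Perm.mul_apply]

/-- Entries of the fixed part along the cycle. -/
theorem Core_FM (σ : Equiv.Perm V) (ε : V → ℝ) (u w : V) (hu : σ u ≠ u) :
    FM σ ε u w = if w = σ u then ε u else if σ w = u then ε w else 0 := by
  unfold FM
  by_cases h1 : u = w
  · subst h1
    rw [if_pos rfl, if_neg (fun h => hu h.symm), if_neg hu]
  · rw [if_neg h1]
    by_cases h2 : σ u = w
    · rw [if_pos h2, if_pos h2.symm]
    · rw [if_neg h2, if_neg (fun h : w = σ u => h2 h.symm)]

theorem Core_FM_fixed (σ : Equiv.Perm V) (ε : V → ℝ) (u w : V) (hu : σ u = u) :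
    FM σ ε u w = 0 := by
  unfold FM
  by_cases h1 : u = w
  · rw [if_pos h1]
  · rw [if_neg h1, if_neg (fun h => h1 (hu.symm.trans h)), if_neg]
    intro h
    apply h1
    exact σ.injective (hu.trans h.symm)

theorem Core_pow_last {k : ℕ} {G : SimpleGraph V} {σ : Equiv.Perm V} (hk : 1 ≤ k)
    (hc : Cyc G k σ) (v : V) : σ ((σ ^ (k - 1)) v) = v := by
  rw [← Core_succ, Nat.sub_add_cancel hk]
  exact hc.per v

theorem core (G : SimpleGraph V) [DecidableRel G.Adj] (d k : ℕ) (hd : 3 ≤ d) (hk : 3 ≤ k)
    (hreg : G.IsRegularOfDegree d) (σ : Equiv.Perm V) (hc : Cyc G k σ) (ε : V → ℝ)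
    (hε : ∀ v, ε v = 1 ∨ ε v = -1) (x : ℝ)
    (hx : 2 * Real.sqrt ((d : ℝ) - 1) ≤ x)
    (hx' : (∀ v, σ v ≠ v → ∏ j ∈ Finset.range k, ε ((σ ^ j) v) = -1) ∨
      2 * Real.sqrt ((d : ℝ) - 1) + 2 * (1 / Real.sqrt ((d : ℝ) - 1)) ^ (k - 1) ≤ x)
    (Z : Finset V → ℝ) (W : Finset V → V → V → ℝ)
    (hZ0 : Z ∅ = 1)
    (hrec : ∀ (H : Finset V) (v : V), v ∈ H → Z H = x * Z (H.erase v)
      - ∑ a ∈ H.erase v, (if G.Adj v a then (1 : ℝ) else 0) * Z ((H.erase v).erase a)
      - ∑ a ∈ H.erase v, ∑ b ∈ (H.erase v).erase a, FM σ ε v a * FM σ ε v b *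
          W (H.erase v) a b)
    (hW : ∀ (H : Finset V) (a b : V), a ∈ H → b ∈ H → a ≠ b →
      W H a b = ∑ c ∈ H.erase a, FM σ ε a c * W (H.erase a) c b)
    (hWd : ∀ (H : Finset V) (b : V), b ∈ H → W H b b = Z (H.erase b))
    (hWs : ∀ (H : Finset V) (a b : V), W H a b = W H b a) (H : Finset V) :
    0 < Z H ∧ ∀ v ∈ H, (∃ u, u ∉ H ∧ G.Adj v u) →
      Z (H.erase v) ≤ 1 / Real.sqrt ((d : ℝ) - 1) * Z H := by
  have hd1 : (2 : ℝ) ≤ (d : ℝ) - 1 := by
    have : (3 : ℝ) ≤ d := by exact_mod_cast hd
    linarith
  set s : ℝ := Real.sqrt ((d : ℝ) - 1) with hs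
  have hs2 : s * s = (d : ℝ) - 1 := Real.mul_self_sqrt (by linarith)
  have hspos : 0 < s := Real.sqrt_pos.mpr (by linarith)
  have hs1 : 1 < s := by nlinarith
  set r : ℝ := 1 / s with hr
  have hrpos : 0 < r := by positivity
  have hrs : r * s = 1 := by rw [hr]; field_simp
  have hε2 : ∀ v, ε v * ε v = 1 := by
    intro v
    rcases hε v with h | h <;> rw [h] <;> norm_num
  induction hn : H.card using Nat.strong_induction_on generalizing H with
  | _ n ih =>
  have ih' : ∀ S : Finset V, S.card < n → 0 < Z S ∧ ∀ v ∈ S, (∃ u, u ∉ S ∧ G.Adj v u) →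
      Z (S.erase v) ≤ r * Z S := fun S hS => ih S.card hS S rfl
  -- the path lemma
  have path : ∀ (v : V), σ v ≠ v → ∀ (t j : ℕ), j + t + 1 = k → 1 ≤ j → ∀ S : Finset V,
      S.card < n → (σ ^ j) v ∈ S → (σ ^ (j - 1)) v ∉ S → (σ ^ (k - 1)) v ∈ S →
      0 ≤ (∏ i ∈ Finset.Ico j (k - 1), ε ((σ ^ i) v)) * W S ((σ ^ j) v) ((σ ^ (k - 1)) v) ∧
      (∏ i ∈ Finset.Ico j (k - 1), ε ((σ ^ i) v)) * W S ((σ ^ j) v) ((σ ^ (k - 1)) v) ≤
        r ^ (t + 1) * Z S := by
    intro v hv t
    induction t with
    | zero =>
      intro j hj hj1 S hS hjS hj1S hbS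
      have hjk : j = k - 1 := by omega
      subst hjk
      rw [Finset.Ico_self, Finset.prod_empty, one_mul, hWd S _ hjS]
      have hadj : G.Adj ((σ ^ (k - 1)) v) ((σ ^ (k - 1 - 1)) v) := by
        have h1 := hc.adj ((σ ^ (k - 1 - 1)) v) (Core_moved v hv _)
        rw [← Core_succ] at h1
        have h2 : k - 1 - 1 + 1 = k - 1 := by omega
        rw [h2] at h1
        exact h1.symm
      obtain ⟨h1, h2⟩ := ih' S hS
      have h3 : (S.erase ((σ ^ (k - 1)) v)).card < n :=
        lt_of_le_of_lt (Finset.card_le_card (Finset.erase_subset _ _)) hS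
      refine ⟨(ih' _ h3).1.le, ?_⟩
      rw [zero_add, pow_one]
      exact h2 _ hjS ⟨_, hj1S, hadj⟩
    | succ t iht =>
      intro j hj hj1 S hS hjS hj1S hbS
      have hjb : (σ ^ j) v ≠ (σ ^ (k - 1)) v := Core_ne hc v hv j (k - 1) (by omega) (by omega)
      have hmv : σ ((σ ^ j) v) ≠ (σ ^ j) v := Core_moved v hv j
      have hsum : W S ((σ ^ j) v) ((σ ^ (k - 1)) v) =
          if (σ ^ (j + 1)) v ∈ S then ε ((σ ^ j) v) *
            W (S.erase ((σ ^ j) v)) ((σ ^ (j + 1)) v) ((σ ^ (k - 1)) v) else 0 := by
        rw [hW S _ _ hjS hbS hjb]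
        have hterm : ∀ c ∈ S.erase ((σ ^ j) v), FM σ ε ((σ ^ j) v) c *
            W (S.erase ((σ ^ j) v)) c ((σ ^ (k - 1)) v) =
            if c = (σ ^ (j + 1)) v then ε ((σ ^ j) v) *
              W (S.erase ((σ ^ j) v)) ((σ ^ (j + 1)) v) ((σ ^ (k - 1)) v) else 0 := by
          intro c hcS
          rw [Core_FM σ ε _ c hmv]
          by_cases h1 : c = (σ ^ (j + 1)) v
          · rw [if_pos h1, if_pos (by rw [h1, Core_succ]), h1]
          · rw [if_neg h1, if_neg (by rw [← Core_succ]; exact h1), if_neg, zero_mul]
            intro h2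
            have h3 : c = (σ ^ (j - 1)) v := by
              apply σ.injective
              rw [h2, ← Core_succ, Nat.sub_add_cancel hj1]
            exact hj1S (h3 ▸ (Finset.mem_of_mem_erase hcS))
        rw [Finset.sum_congr rfl hterm, Finset.sum_ite_eq']
        have hiff : (σ ^ (j + 1)) v ∈ S.erase ((σ ^ j) v) ↔ (σ ^ (j + 1)) v ∈ S := by
          rw [Finset.mem_erase]
          refine ⟨fun h => h.2, fun h => ⟨?_, h⟩⟩
          rw [Core_succ]
          exact hmv
        simp only [hiff]
      by_cases hin : (σ ^ (j + 1)) v ∈ S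
      · rw [hsum, if_pos hin]
        have hcard : (S.erase ((σ ^ j) v)).card < n :=
          lt_of_le_of_lt (Finset.card_le_card (Finset.erase_subset _ _)) hS
        have h1 := iht (j + 1) (by omega) (by omega) (S.erase ((σ ^ j) v)) hcard
          (Finset.mem_erase.mpr ⟨by rw [Core_succ]; exact hmv, hin⟩)
          (by rw [Nat.add_sub_cancel]; exact Finset.notMem_erase _ _)
          (Finset.mem_erase.mpr ⟨hjb.symm, hbS⟩)
        have h2 : (∏ i ∈ Finset.Ico j (k - 1), ε ((σ ^ i) v)) =
            ε ((σ ^ j) v) * ∏ i ∈ Finset.Ico (j + 1) (k - 1), ε ((σ ^ i) v) := by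
          rw [Finset.prod_eq_prod_Ico_succ_bot (by omega)]
        have h3 : (∏ i ∈ Finset.Ico j (k - 1), ε ((σ ^ i) v)) * (ε ((σ ^ j) v) *
            W (S.erase ((σ ^ j) v)) ((σ ^ (j + 1)) v) ((σ ^ (k - 1)) v)) =
            (∏ i ∈ Finset.Ico (j + 1) (k - 1), ε ((σ ^ i) v)) *
            W (S.erase ((σ ^ j) v)) ((σ ^ (j + 1)) v) ((σ ^ (k - 1)) v) := by
          rw [h2]
          linear_combination ((∏ i ∈ Finset.Ico (j + 1) (k - 1), ε ((σ ^ i) v)) *
            W (S.erase ((σ ^ j) v)) ((σ ^ (j + 1)) v) ((σ ^ (k - 1)) v)) *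
            hε2 ((σ ^ j) v)
        rw [h3]
        refine ⟨h1.1, h1.2.trans ?_⟩
        have hadj : G.Adj ((σ ^ j) v) ((σ ^ (j - 1)) v) := by
          have h4 := hc.adj ((σ ^ (j - 1)) v) (Core_moved v hv _)
          rw [← Core_succ, Nat.sub_add_cancel hj1] at h4
          exact h4.symm
        have h5 := (ih' S hS).2 _ hjS ⟨_, hj1S, hadj⟩
        calc r ^ (t + 1) * Z (S.erase ((σ ^ j) v)) ≤ r ^ (t + 1) * (r * Z S) := by
              exact mul_le_mul_of_nonneg_left h5 (by positivity)
          _ = r ^ (t + 1 + 1) * Z S := by ring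
      · rw [hsum, if_neg hin, mul_zero]
        refine ⟨le_rfl, ?_⟩
        have := (ih' S hS).1
        positivity
  -- the main estimate
  have main : ∀ v ∈ H, (2 * s) * Z (H.erase v) -
      ∑ a ∈ H.erase v, (if G.Adj v a then (1 : ℝ) else 0) * (r * Z (H.erase v)) ≤ Z H := by
    intro v hvH
    have hcard : (H.erase v).card < n := by
      rw [Finset.card_erase_of_mem hvH, ← hn]
      have : 0 < H.card := Finset.card_pos.mpr ⟨v, hvH⟩
      omega
    have hZS := (ih' _ hcard).1
    have hcross : ∑ a ∈ H.erase v, ∑ b ∈ (H.erase v).erase a, FM σ ε v a * FM σ ε v b *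
          W (H.erase v) a b ≤ (x - 2 * s) * Z (H.erase v) := by
      by_cases hv : σ v = v
      · have h0 : ∑ a ∈ H.erase v, ∑ b ∈ (H.erase v).erase a, FM σ ε v a * FM σ ε v b *
            W (H.erase v) a b = 0 := by
          apply Finset.sum_eq_zero
          intro a _
          apply Finset.sum_eq_zero
          intro b _
          rw [Core_FM_fixed σ ε v a hv]
          ring
        rw [h0]
        have : 0 ≤ x - 2 * s := by linarith
        positivity
      · have hv1 : σ v ≠ v := hv
        set c1 : V := (σ ^ 1) v with hc1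
        have hc1' : c1 = σ v := by rw [hc1, pow_one]
        set b1 : V := (σ ^ (k - 1)) v with hb1
        have hb1' : σ b1 = v := Core_pow_last (by omega) hc v
        have hcb : c1 ≠ b1 := Core_ne hc v hv1 1 (k - 1) (by omega) (by omega)
        have hFc : FM σ ε v c1 = ε v := by
          rw [Core_FM σ ε v c1 hv1, if_pos hc1']
        have hFb : FM σ ε v b1 = ε b1 := by
          rw [Core_FM σ ε v b1 hv1, if_neg, if_pos hb1']
          intro h
          exact hcb (hc1'.trans h.symm)
        have hF0 : ∀ a, a ≠ c1 → a ≠ b1 → FM σ ε v a = 0 := by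
          intro a h1 h2
          rw [Core_FM σ ε v a hv1, if_neg (fun h => h1 (h.trans hc1'.symm)), if_neg]
          intro h
          exact h2 (σ.injective (h.trans hb1'.symm))
        by_cases hin : c1 ∈ H.erase v ∧ b1 ∈ H.erase v
        · -- evaluate the double sum
          have hval : ∑ a ∈ H.erase v, ∑ b ∈ (H.erase v).erase a, FM σ ε v a * FM σ ε v b *
              W (H.erase v) a b = 2 * (ε v * ε b1 * W (H.erase v) c1 b1) := by
            have hsub : ({c1, b1} : Finset V) ⊆ H.erase v := by
              intro y hy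
              rcases Finset.mem_insert.mp hy with h | h
              · rw [h]; exact hin.1
              · rw [Finset.mem_singleton.mp h]; exact hin.2
            rw [← Finset.sum_subset hsub, Finset.sum_pair hcb]
            · have e1 : ∑ b ∈ (H.erase v).erase c1, FM σ ε v c1 * FM σ ε v b *
                  W (H.erase v) c1 b = ε v * ε b1 * W (H.erase v) c1 b1 := by
                rw [Finset.sum_eq_single b1]
                · rw [hFc, hFb]
                · intro b hb hbb
                  rw [hF0 b (Finset.ne_of_mem_erase hb) hbb]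
                  ring
                · intro h
                  exact absurd (Finset.mem_erase.mpr ⟨hcb.symm, hin.2⟩) h
              have e2 : ∑ b ∈ (H.erase v).erase b1, FM σ ε v b1 * FM σ ε v b *
                  W (H.erase v) b1 b = ε b1 * ε v * W (H.erase v) b1 c1 := by
                rw [Finset.sum_eq_single c1]
                · rw [hFc, hFb]
                · intro b hb hbb
                  rw [hF0 b hbb (Finset.ne_of_mem_erase hb)]
                  ring
                · intro h
                  exact absurd (Finset.mem_erase.mpr ⟨hcb, hin.1⟩) h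
              rw [e1, e2, hWs _ b1 c1]
              ring
            · intro a _ ha
              apply Finset.sum_eq_zero
              intro b _
              have m1 : a ≠ c1 := by
                rintro rfl
                exact ha (Finset.mem_insert_self _ _)
              have m2 : a ≠ b1 := by
                rintro rfl
                exact ha (Finset.mem_insert_of_mem (Finset.mem_singleton_self _))
              rw [hF0 a m1 m2]
              ring
          have hp := path v hv1 (k - 2) 1 (by omega) le_rfl (H.erase v) hcard hin.1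
            (by rw [Nat.sub_self, pow_zero]; exact Finset.notMem_erase _ _) hin.2
          have hk2 : k - 2 + 1 = k - 1 := by omega
          rw [hk2] at hp
          rw [← hc1, ← hb1] at hp
          -- the full product
          have hprod : ∏ j ∈ Finset.range k, ε ((σ ^ j) v) =
              ε v * (∏ i ∈ Finset.Ico 1 (k - 1), ε ((σ ^ i) v)) * ε b1 := by
            rw [Finset.range_eq_Ico, Finset.prod_eq_prod_Ico_succ_bot (by omega : 0 < k)]
            have hk1 : k = (k - 1) + 1 := by omega
            have : Finset.Ico (0 + 1) k = Finset.Ico 1 ((k - 1) + 1) := by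
              rw [← hk1]
            rw [this, Finset.prod_Ico_succ_top (by omega)]
            rw [pow_zero, Equiv.Perm.one_apply, hb1]
            ring
          set P : ℝ := ∏ i ∈ Finset.Ico 1 (k - 1), ε ((σ ^ i) v) with hP
          have hP2 : P * P = 1 := by
            rw [hP, ← Finset.prod_mul_distrib]
            exact Finset.prod_eq_one fun i _ => hε2 _
          have hrw : 2 * (ε v * ε b1 * W (H.erase v) c1 b1) =
              2 * (ε v * P * ε b1) * (P * W (H.erase v) c1 b1) := by
            linear_combination (-2 * (ε v * ε b1 * W (H.erase v) c1 b1)) * hP2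
          rw [hval, hrw]
          rcases hx' with hneg | hpos
          · rw [← hprod, hneg v hv1]
            have : 0 ≤ x - 2 * s := by linarith
            have h6 : 0 ≤ (x - 2 * s) * Z (H.erase v) := by positivity
            linarith [hp.1]
          · have hle : ε v * P * ε b1 ≤ 1 := by
              have h7 : (ε v * P * ε b1) * (ε v * P * ε b1) = 1 := by
                calc (ε v * P * ε b1) * (ε v * P * ε b1) =
                    (ε v * ε v) * (P * P) * (ε b1 * ε b1) := by ring
                  _ = 1 := by rw [hε2, hε2, hP2]; norm_num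
              nlinarith
            have h8 : 2 * (ε v * P * ε b1) * (P * W (H.erase v) c1 b1) ≤
                2 * (P * W (H.erase v) c1 b1) := by
              have := mul_le_mul_of_nonneg_right hle hp.1
              linarith
            have h9 : 2 * (P * W (H.erase v) c1 b1) ≤ 2 * (r ^ (k - 1) * Z (H.erase v)) := by
              linarith [hp.2]
            have h10 : 2 * (r ^ (k - 1) * Z (H.erase v)) ≤ (x - 2 * s) * Z (H.erase v) := by
              have : 2 * r ^ (k - 1) ≤ x - 2 * s := by linarith
              have := mul_le_mul_of_nonneg_right this hZS.le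
              linarith
            linarith
        · -- one of the two neighbours is missing: everything vanishes
          have h0 : ∑ a ∈ H.erase v, ∑ b ∈ (H.erase v).erase a, FM σ ε v a * FM σ ε v b *
              W (H.erase v) a b = 0 := by
            apply Finset.sum_eq_zero
            intro a ha
            apply Finset.sum_eq_zero
            intro b hb
            have hb' := Finset.mem_of_mem_erase hb
            have hab := Finset.ne_of_mem_erase hb
            by_cases h1 : a = c1
            · have h2 : b ≠ b1 := by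
                intro h
                exact hin ⟨h1 ▸ ha, h ▸ hb'⟩
              rw [hF0 b (fun h => hab (h.trans h1.symm)) h2]
              ring
            · by_cases h2 : a = b1
              · have h3 : b ≠ c1 := by
                  intro h
                  exact hin ⟨h ▸ hb', h2 ▸ ha⟩
                rw [hF0 b h3 (fun h => hab (h.trans h2.symm))]
                ring
              · rw [hF0 a h1 h2]
                ring
          rw [h0]
          have : 0 ≤ x - 2 * s := by linarith
          positivity
    have hsum : ∑ a ∈ H.erase v, (if G.Adj v a then (1 : ℝ) else 0) *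
        Z ((H.erase v).erase a) ≤
        ∑ a ∈ H.erase v, (if G.Adj v a then (1 : ℝ) else 0) * (r * Z (H.erase v)) := by
      apply Finset.sum_le_sum
      intro a ha
      by_cases h1 : G.Adj v a
      · rw [if_pos h1, one_mul, one_mul]
        exact (ih' _ hcard).2 a ha ⟨v, Finset.notMem_erase _ _, h1.symm⟩
      · rw [if_neg h1, zero_mul, zero_mul]
    rw [hrec H v hvH]
    linarith
  have hcount : ∀ v ∈ H, ∑ a ∈ H.erase v, (if G.Adj v a then (1 : ℝ) else 0) ≤ d := by
    intro v _
    rw [Finset.sum_boole]
    have h1 : (H.erase v).filter (fun a => G.Adj v a) ⊆ G.neighborFinset v := by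
      intro a ha
      rw [SimpleGraph.mem_neighborFinset]
      exact (Finset.mem_filter.mp ha).2
    have h2 := Finset.card_le_card h1
    rw [SimpleGraph.card_neighborFinset_eq_degree, hreg v] at h2
    exact_mod_cast h2
  have hcount' : ∀ v ∈ H, (∃ u, u ∉ H ∧ G.Adj v u) →
      ∑ a ∈ H.erase v, (if G.Adj v a then (1 : ℝ) else 0) ≤ (d : ℝ) - 1 := by
    intro v _ ⟨u, huH, hvu⟩
    rw [Finset.sum_boole]
    have h1 : (H.erase v).filter (fun a => G.Adj v a) ⊆ (G.neighborFinset v).erase u := by
      intro a ha
      rw [Finset.mem_erase, SimpleGraph.mem_neighborFinset]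
      refine ⟨?_, (Finset.mem_filter.mp ha).2⟩
      intro h
      exact huH (h ▸ Finset.mem_of_mem_erase (Finset.mem_filter.mp ha).1)
    have h2 := Finset.card_le_card h1
    rw [Finset.card_erase_of_mem (by rw [SimpleGraph.mem_neighborFinset]; exact hvu),
      SimpleGraph.card_neighborFinset_eq_degree, hreg v] at h2
    have h3 : (((H.erase v).filter (fun a => G.Adj v a)).card : ℝ) ≤ ((d - 1 : ℕ) : ℝ) := by
      exact_mod_cast h2
    rw [Nat.cast_sub (by omega), Nat.cast_one] at h3
    exact h3
  constructor
  · rcases H.eq_empty_or_nonempty with h0 | ⟨v, hv⟩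
    · rw [h0, hZ0]
      norm_num
    · have hcard : (H.erase v).card < n := by
        rw [Finset.card_erase_of_mem hv, ← hn]
        have : 0 < H.card := Finset.card_pos.mpr ⟨v, hv⟩
        omega
      have hZS := (ih' _ hcard).1
      have h1 := main v hv
      rw [← Finset.sum_mul] at h1
      have h2 := hcount v hv
      have h3 : (∑ a ∈ H.erase v, (if G.Adj v a then (1 : ℝ) else 0)) * (r * Z (H.erase v)) ≤
          d * (r * Z (H.erase v)) := by
        apply mul_le_mul_of_nonneg_right h2
        positivity
      have h4 : 0 < 2 * s - d * r := by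
        have h5 : (d : ℝ) = s * s + 1 := by linarith
        have h6 : (d : ℝ) * r = s + r := by
          rw [h5]
          linear_combination s * hrs
        rw [h6]
        have h7 : r < 1 := by
          rw [hr, div_lt_one hspos]
          exact hs1
        linarith
      have h5 : 0 < (2 * s - d * r) * Z (H.erase v) := by positivity
      nlinarith
  · intro v hv hu
    have hcard : (H.erase v).card < n := by
      rw [Finset.card_erase_of_mem hv, ← hn]
      have : 0 < H.card := Finset.card_pos.mpr ⟨v, hv⟩
      omega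
    have hZS := (ih' _ hcard).1
    have h1 := main v hv
    rw [← Finset.sum_mul] at h1
    have h2 := hcount' v hv hu
    have h3 : (∑ a ∈ H.erase v, (if G.Adj v a then (1 : ℝ) else 0)) * (r * Z (H.erase v)) ≤
        ((d : ℝ) - 1) * (r * Z (H.erase v)) := by
      apply mul_le_mul_of_nonneg_right h2
      positivity
    have h4 : ((d : ℝ) - 1) * (r * Z (H.erase v)) = s * Z (H.erase v) := by
      rw [← hs2]
      linear_combination s * Z (H.erase v) * hrs
    have h5 : s * Z (H.erase v) ≤ Z H := by linarith
    have h6 := mul_le_mul_of_nonneg_left h5 hrpos.le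
    calc Z (H.erase v) = r * (s * Z (H.erase v)) := by
          linear_combination (-Z (H.erase v)) * hrs
      _ ≤ r * Z H := h6

end Pool.Agent.helper17.NR
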