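import Mathlib
import Pool.Agent.helper17.NR.Defs

set_option autoImplicit false

namespace Pool.Agent.helper17.NR

/-- The complete bipartite graph. -/
def BasG (d : ℕ) : SimpleGraph (Bool × Fin d) where
  Adj p r := p.1 ≠ r.1
  symm := ⟨fun _ _ h => Ne.symm h⟩
  loopless := ⟨fun _ h => h rfl⟩

instance BasDec (d : ℕ) : DecidableRel (BasG d).Adj := fun p r => inferInstanceAs (Decidable (p.1 ≠ r.1))

theorem Bas_adj {d : ℕ} {p r : Bool × Fin d} : (BasG d).Adj p r ↔ p.1 ≠ r.1 := Iff.rfl

/-- The four-cycle. -/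
def BasF {d : ℕ} (a b : Fin d) (p : Bool × Fin d) : Bool × Fin d :=
  if p.2 = a ∨ p.2 = b then (!p.1, if p.1 = true then p.2 else Equiv.swap a b p.2) else p

/-- The inverse of the four-cycle. -/
def BasI {d : ℕ} (a b : Fin d) (p : Bool × Fin d) : Bool × Fin d :=
  if p.2 = a ∨ p.2 = b then (!p.1, if p.1 = true then Equiv.swap a b p.2 else p.2) else p

theorem Bas_sw {d : ℕ} {a b x : Fin d} (h : x = a ∨ x = b) :
    Equiv.swap a b x = a ∨ Equiv.swap a b x = b := by
  rcases h with rfl | rfl
  · right; exact Equiv.swap_apply_left _ _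
  · left; exact Equiv.swap_apply_right _ _

theorem Bas_sw_ne {d : ℕ} {a b x : Fin d} (hab : a ≠ b) (h : x = a ∨ x = b) :
    Equiv.swap a b x ≠ x := by
  rcases h with rfl | rfl
  · rw [Equiv.swap_apply_left]; exact hab.symm
  · rw [Equiv.swap_apply_right]; exact hab

/-- The permutation. -/
def BasS {d : ℕ} (a b : Fin d) : Equiv.Perm (Bool × Fin d) where
  toFun := BasF a b
  invFun := BasI a b
  left_inv := by
    rintro ⟨c, x⟩
    by_cases h : x = a ∨ x = b
    · cases c
      · simp [BasF, BasI, h, Bas_sw h]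
      · simp [BasF, BasI, h]
    · simp [BasF, BasI, h]
  right_inv := by
    rintro ⟨c, x⟩
    by_cases h : x = a ∨ x = b
    · cases c
      · simp [BasF, BasI, h]
      · simp [BasF, BasI, h, Bas_sw h]
    · simp [BasF, BasI, h]

theorem Bas_true {d : ℕ} {a b x : Fin d} (h : x = a ∨ x = b) : BasS a b (true, x) = (false, x) := by
  change BasF a b (true, x) = _
  simp [BasF, h]

theorem Bas_false {d : ℕ} {a b x : Fin d} (h : x = a ∨ x = b) :
    BasS a b (false, x) = (true, Equiv.swap a b x) := by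
  change BasF a b (false, x) = _
  simp [BasF, h]

theorem Bas_fix {d : ℕ} {a b x : Fin d} (c : Bool) (h : ¬ (x = a ∨ x = b)) :
    BasS a b (c, x) = (c, x) := by
  change BasF a b (c, x) = _
  simp [BasF, h]

theorem Bas_two {d : ℕ} {a b x : Fin d} (c : Bool) (h : x = a ∨ x = b) :
    (BasS a b ^ 2) (c, x) = (c, Equiv.swap a b x) := by
  rw [pow_two, Equiv.Perm.mul_apply]
  cases c
  · rw [Bas_false h, Bas_true (Bas_sw h)]
  · rw [Bas_true h, Bas_false h]

theorem Bas_three {d : ℕ} {a b x : Fin d} (c : Bool) (h : x = a ∨ x = b) :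
    ((BasS a b ^ 3) (c, x)).1 = !c := by
  rw [show (3 : ℕ) = 1 + 2 from rfl, pow_add, Equiv.Perm.mul_apply, Bas_two c h, pow_one]
  cases c
  · rw [Bas_false (Bas_sw h)]; rfl
  · rw [Bas_true (Bas_sw h)]; rfl

theorem Bas_four {d : ℕ} {a b : Fin d} (p : Bool × Fin d) : (BasS a b ^ 4) p = p := by
  obtain ⟨c, x⟩ := p
  by_cases h : x = a ∨ x = b
  · rw [show (4 : ℕ) = 2 + 2 from rfl, pow_add, Equiv.Perm.mul_apply, Bas_two c h, Bas_two c (Bas_sw h),
      Equiv.swap_apply_self]
  · have h1 := Bas_fix (a := a) (b := b) c h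
    rw [show (4 : ℕ) = 1 + 1 + 1 + 1 from rfl]
    simp only [pow_add, pow_one, Equiv.Perm.mul_apply, h1]

theorem Bas_mem {d : ℕ} {a b : Fin d} {p : Bool × Fin d} (h : BasS a b p ≠ p) : p.2 = a ∨ p.2 = b := by
  by_contra hn
  exact h (Bas_fix p.1 hn)

theorem Bas_cyc {d : ℕ} {a b : Fin d} (hab : a ≠ b) : Cyc (BasG d) 4 (BasS a b) := by
  refine ⟨?_, fun v => Bas_four v, ?_, ?_⟩
  · rintro ⟨c, x⟩ h
    have hx := Bas_mem h
    rw [Bas_adj]
    cases c
    · rw [Bas_false hx]; exact Bool.false_ne_true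
    · rw [Bas_true hx]; exact Bool.false_ne_true.symm
  · rintro ⟨c, x⟩ h j hj hj4 he
    have hx := Bas_mem h
    have h3 : j = 1 ∨ j = 2 ∨ j = 3 := by omega
    rcases h3 with rfl | rfl | rfl
    · rw [pow_one] at he
      exact h he
    · rw [Bas_two c hx] at he
      exact Bas_sw_ne hab hx (congrArg Prod.snd he)
    · have h4 := Bas_three c hx
      rw [he] at h4
      cases c <;> simp at h4
  · rintro ⟨c, x⟩ _
    refine ⟨(!c, a), ?_, ?_⟩
    · intro he
      have h1 := congrArg Prod.fst he
      cases c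
      · change (BasS a b (true, a)).1 = true at h1
        rw [Bas_true (Or.inl rfl)] at h1
        simp at h1
      · change (BasS a b (false, a)).1 = false at h1
        rw [Bas_false (Or.inl rfl)] at h1
        simp at h1
    · rw [Bas_adj]
      cases c
      · exact Bool.false_ne_true
      · exact Bool.false_ne_true.symm

theorem Bas_conn {d : ℕ} (a : Fin d) : (BasG d).Connected := by
  have hr : ∀ p r : Bool × Fin d, (BasG d).Reachable p r := by
    rintro ⟨c, x⟩ ⟨e, y⟩
    by_cases h : c = e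
    · subst h
      have h1 : (BasG d).Adj (c, x) (!c, x) := by
        rw [Bas_adj]
        cases c
        · exact Bool.false_ne_true
        · exact Bool.false_ne_true.symm
      have h2 : (BasG d).Adj (!c, x) (c, y) := by
        rw [Bas_adj]
        cases c
        · exact Bool.false_ne_true.symm
        · exact Bool.false_ne_true
      exact h1.reachable.trans h2.reachable
    · exact (show (BasG d).Adj (c, x) (e, y) from h).reachable
  have hn : Nonempty (Bool × Fin d) := ⟨(true, a)⟩
  exact { preconnected := hr, nonempty := hn }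

theorem Bas_reg (d : ℕ) : (BasG d).IsRegularOfDegree d := by
  intro p
  obtain ⟨c, x⟩ := p
  have h : (BasG d).neighborFinset (c, x) = Finset.univ.map ⟨fun i : Fin d => (!c, i), fun i j hij =>
      congrArg Prod.snd hij⟩ := by
    ext ⟨e, y⟩
    rw [SimpleGraph.mem_neighborFinset, Bas_adj, Finset.mem_map]
    constructor
    · intro he
      refine ⟨y, Finset.mem_univ _, ?_⟩
      change (!c, y) = (e, y)
      cases c <;> cases e <;> simp_all
    · rintro ⟨z, -, hz⟩
      have h1 : (!c) = e := congrArg Prod.fst hz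
      change c ≠ e
      rw [← h1]
      cases c <;> decide
  rw [← SimpleGraph.card_neighborFinset_eq_degree, h, Finset.card_map, Finset.card_univ, Fintype.card_fin]

theorem Bas_mul {d : ℕ} (f : Bool × Fin d → ℝ) (c : Bool) (x : Fin d) :
    Matrix.mulVec ((BasG d).adjMatrix ℝ) f (c, x) = ∑ i, f (!c, i) := by
  rw [Matrix.mulVec, dotProduct, Fintype.sum_prod_type, Fintype.sum_bool]
  simp only [SimpleGraph.adjMatrix_apply, Bas_adj]
  cases c <;> simp

theorem Bas_eig {d : ℕ} {μ : ℝ} {f : Bool × Fin d → ℝ} (hf : f ≠ 0)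
    (h : Matrix.mulVec ((BasG d).adjMatrix ℝ) f = μ • f) : |μ| = (d : ℝ) ∨ |μ| ≤ 0 := by
  by_cases hμ : μ = 0
  · right
    rw [hμ, abs_zero]
  · left
    have h1 : ∀ c x, ∑ i, f (!c, i) = μ * f (c, x) := by
      intro c x
      rw [← Bas_mul f c x, h]
      rfl
    have h2 : ∀ c, μ * ∑ i, f (c, i) = d * ∑ i, f (!c, i) := by
      intro c
      rw [Finset.mul_sum]
      rw [Finset.sum_congr rfl fun i _ => (h1 c i).symm]
      rw [Finset.sum_const, Finset.card_univ, Fintype.card_fin, nsmul_eq_mul]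
    have h3 : ∑ i, f (true, i) ≠ 0 := by
      intro h0
      have h4 : ∑ i, f (false, i) = 0 := by
        have := h2 false
        change μ * ∑ i, f (false, i) = d * ∑ i, f (true, i) at this
        rw [h0, mul_zero] at this
        exact (mul_eq_zero.1 this).resolve_left hμ
      apply hf
      funext p
      obtain ⟨c, x⟩ := p
      have h5 := h1 c x
      cases c
      · change ∑ i, f (true, i) = _ at h5
        rw [h0] at h5
        exact (mul_eq_zero.1 h5.symm).resolve_left hμ
      · change ∑ i, f (false, i) = _ at h5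
        rw [h4] at h5
        exact (mul_eq_zero.1 h5.symm).resolve_left hμ
    have h4 := h2 true
    have h5 := h2 false
    change μ * ∑ i, f (true, i) = d * ∑ i, f (false, i) at h4
    change μ * ∑ i, f (false, i) = d * ∑ i, f (true, i) at h5
    have h6 : μ ^ 2 = (d : ℝ) ^ 2 := by
      have : (μ ^ 2 - (d : ℝ) ^ 2) * ∑ i, f (true, i) = 0 := by
        linear_combination μ * h4 + (d : ℝ) * h5
      have := (mul_eq_zero.1 this).resolve_right h3
      linarith
    rw [← abs_of_nonneg (Nat.cast_nonneg (α := ℝ) d)]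
    exact (sq_eq_sq_iff_abs_eq_abs _ _).1 h6

theorem state_base (d : ℕ) (hd : 3 ≤ d) : State d 4 0 (2 * d) := by
  have hab : (⟨0, by omega⟩ : Fin d) ≠ ⟨1, by omega⟩ := by
    intro h
    have := congrArg Fin.val h
    simp at this
  refine ⟨Bool × Fin d, inferInstance, inferInstance, BasG d, BasDec d, Prod.fst,
    BasS ⟨0, by omega⟩ ⟨1, by omega⟩, ?_, Bas_conn ⟨0, by omega⟩, Bas_reg d, fun u v h => h, Bas_cyc hab, ?_⟩
  · simp
  · rintro μ ⟨f, hf, h⟩
    exact Bas_eig hf h

end Pool.Agent.helper17.NR
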