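import Mathlib
import Pool.Agent.helper17.NR.Defs

set_option autoImplicit false

namespace Pool.Agent.helper17.NR

variable {V : Type*} [Fintype V] [DecidableEq V]

instance (G : SimpleGraph V) [DecidableRel G.Adj] (s : V → V → Bool) (hs : ∀ u v, s u v = s v u) :
    DecidableRel (lift G s hs).Adj := fun p r =>
  inferInstanceAs (Decidable (G.Adj p.1 r.1 ∧ (s p.1 r.1 = true ↔ p.2 = r.2)))

theorem LftA_adj (G : SimpleGraph V) (s : V → V → Bool) (hs : ∀ u v, s u v = s v u)
    (u w : V) (a b : Bool) : (lift G s hs).Adj (u, a) (w, b) ↔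
      G.Adj u w ∧ b = (if s u w = true then a else !a) := by
  show (G.Adj u w ∧ (s u w = true ↔ a = b)) ↔ _
  cases s u w <;> cases a <;> cases b <;> simp

theorem lift_regular (G : SimpleGraph V) [DecidableRel G.Adj] (d : ℕ)
    (hreg : G.IsRegularOfDegree d) (s : V → V → Bool) (hs : ∀ u v, s u v = s v u) :
    (lift G s hs).IsRegularOfDegree d := by
  rintro ⟨u, a⟩
  rw [← hreg u]
  symm
  refine Finset.card_bij (fun w _ => (w, if s u w = true then a else !a)) ?_ ?_ ?_
  · intro w hw
    rw [SimpleGraph.mem_neighborFinset] at hw ⊢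
    exact (LftA_adj G s hs u w a _).2 ⟨hw, rfl⟩
  · intro w _ w' _ h
    exact (Prod.mk.inj h).1
  · rintro ⟨w, b⟩ hb
    rw [SimpleGraph.mem_neighborFinset, LftA_adj] at hb
    refine ⟨w, ?_, ?_⟩
    · rw [SimpleGraph.mem_neighborFinset]
      exact hb.1
    · rw [hb.2]

/-- the adjacency matrix of the lift -/
theorem LftA_mul (G : SimpleGraph V) [DecidableRel G.Adj] (s : V → V → Bool)
    (hs : ∀ u v, s u v = s v u) (f : V × Bool → ℝ) (u : V) (a : Bool) :
    Matrix.mulVec ((lift G s hs).adjMatrix ℝ) f (u, a) =
      ∑ w, if G.Adj u w then (if s u w = true then f (w, a) else f (w, !a)) else 0 := by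
  unfold Matrix.mulVec dotProduct
  rw [Fintype.sum_prod_type]
  refine Finset.sum_congr rfl fun w _ => ?_
  rw [Fintype.sum_bool]
  simp only [SimpleGraph.adjMatrix_apply, LftA_adj]
  by_cases h : G.Adj u w
  · cases hsuw : s u w <;> cases a <;> simp [h]
  · simp [h]

theorem lift_eigen (G : SimpleGraph V) [DecidableRel G.Adj] (s : V → V → Bool)
    (hs : ∀ u v, s u v = s v u) (μ : ℝ)
    (h : ∃ f : V × Bool → ℝ, f ≠ 0 ∧ Matrix.mulVec ((lift G s hs).adjMatrix ℝ) f = μ • f) :
    (∃ f : V → ℝ, f ≠ 0 ∧ Matrix.mulVec (G.adjMatrix ℝ) f = μ • f) ∨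
      (∃ f : V → ℝ, f ≠ 0 ∧ Matrix.mulVec (SA G s) f = μ • f) := by
  obtain ⟨f, hf0, hf⟩ := h
  have hval : ∀ u a, μ * f (u, a) =
      ∑ w, if G.Adj u w then (if s u w = true then f (w, a) else f (w, !a)) else 0 := by
    intro u a
    rw [← LftA_mul G s hs f u a, hf]
    rfl
  by_cases hp : (fun v => f (v, true) + f (v, false)) = 0
  · right
    refine ⟨fun v => f (v, true) - f (v, false), ?_, ?_⟩
    · intro hm
      apply hf0
      funext ⟨v, b⟩
      have h1 : f (v, true) + f (v, false) = 0 := congrFun hp v
      have h2 : f (v, true) - f (v, false) = 0 := congrFun hm v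
      cases b
      · show f (v, false) = 0
        linarith
      · show f (v, true) = 0
        linarith
    · funext u
      show ∑ w, SA G s u w * (f (w, true) - f (w, false)) = μ * (f (u, true) - f (u, false))
      rw [mul_sub, hval u true, hval u false, ← Finset.sum_sub_distrib]
      refine Finset.sum_congr rfl fun w _ => ?_
      unfold SA sg
      by_cases h : G.Adj u w
      · cases s u w <;> simp [h]
      · simp [h]
  · left
    refine ⟨fun v => f (v, true) + f (v, false), hp, ?_⟩
    funext u
    show ∑ w, G.adjMatrix ℝ u w * (f (w, true) + f (w, false)) = μ * (f (u, true) + f (u, false))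
    rw [mul_add, hval u true, hval u false, ← Finset.sum_add_distrib]
    refine Finset.sum_congr rfl fun w _ => ?_
    rw [SimpleGraph.adjMatrix_apply]
    by_cases h : G.Adj u w
    · cases s u w
      · simp only [h, if_true, Bool.false_eq_true, if_false, Bool.not_true, Bool.not_false, one_mul]
        ring
      · simp [h]
    · simp [h]

theorem LftA_lt (G : SimpleGraph V) [DecidableRel G.Adj] (s : V → V → Bool) (x0 : ℝ)
    (hdet : ∀ x : ℝ, x0 ≤ x → 0 < (x • 1 - SA G s).det) (μ : ℝ)
    (f : V → ℝ) (hf0 : f ≠ 0) (hf : Matrix.mulVec (SA G s) f = μ • f) : μ < x0 := by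
  by_contra hlt
  have h1 := hdet μ (not_lt.1 hlt)
  have h2 : (μ • (1 : Matrix V V ℝ) - SA G s).det = 0 := by
    rw [← Matrix.exists_mulVec_eq_zero_iff]
    refine ⟨f, hf0, ?_⟩
    rw [Matrix.sub_mulVec, Matrix.smul_mulVec, Matrix.one_mulVec, hf, sub_self]
  exact h1.ne' h2

/-- For bipartite graphs the signed spectrum is symmetric. -/
theorem signed_bound (G : SimpleGraph V) [DecidableRel G.Adj] (s : V → V → Bool)
    (col : V → Bool) (hcol : ∀ u v, G.Adj u v → col u ≠ col v) (x0 : ℝ)
    (hdet : ∀ x : ℝ, x0 ≤ x → 0 < (x • 1 - SA G s).det) (μ : ℝ)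
    (h : ∃ f : V → ℝ, f ≠ 0 ∧ Matrix.mulVec (SA G s) f = μ • f) : |μ| < x0 := by
  obtain ⟨f, hf0, hf⟩ := h
  rw [abs_lt]
  refine ⟨?_, LftA_lt G s x0 hdet μ f hf0 hf⟩
  have h1 : -μ < x0 := by
    refine LftA_lt G s x0 hdet (-μ) (fun v => sg (col v) * f v) ?_ ?_
    · intro h0
      apply hf0
      funext v
      have h2 : sg (col v) * f v = 0 := congrFun h0 v
      have h3 : sg (col v) ≠ 0 := by
        unfold sg
        split_ifs <;> norm_num
      exact (mul_eq_zero.1 h2).resolve_left h3
    · funext u
      have hu : ∑ w, SA G s u w * f w = μ * f u := congrFun hf u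
      show ∑ w, SA G s u w * (sg (col w) * f w) = -μ * (sg (col u) * f u)
      have h4 : ∀ w, SA G s u w * (sg (col w) * f w) = -sg (col u) * (SA G s u w * f w) := by
        intro w
        by_cases hadj : G.Adj u w
        · have h5 := hcol u w hadj
          have h6 : sg (col w) = -sg (col u) := by
            unfold sg
            cases hcu : col u <;> cases hcw : col w <;> simp_all
          rw [h6]
          ring
        · have h7 : SA G s u w = 0 := by
            unfold SA
            rw [if_neg hadj]
          rw [h7]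
          ring
      rw [Finset.sum_congr rfl fun w _ => h4 w, ← Finset.mul_sum, hu]
      ring
  linarith

theorem LftA_flip (G : SimpleGraph V) (s : V → V → Bool) (hs : ∀ u v, s u v = s v u) {u w : V}
    {a b : Bool} (h : (lift G s hs).Reachable (u, a) (w, b)) :
    (lift G s hs).Reachable (u, !a) (w, !b) := by
  let φ : lift G s hs →g lift G s hs :=
    { toFun := fun p => (p.1, !p.2)
      map_rel' := by
        rintro ⟨x, c⟩ ⟨y, e⟩ hxy
        rw [LftA_adj] at hxy ⊢
        refine ⟨hxy.1, ?_⟩
        rw [hxy.2]
        split_ifs <;> rfl }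
  exact h.map φ

theorem LftA_path (G : SimpleGraph V) (s : V → V → Bool) (hs : ∀ u v, s u v = s v u) {u w : V}
    (h : G.Reachable u w) (a : Bool) : ∃ b, (lift G s hs).Reachable (u, a) (w, b) := by
  obtain ⟨p⟩ := h
  induction p generalizing a with
  | nil => exact ⟨a, SimpleGraph.Reachable.refl _⟩
  | @cons u v w hadj p ih =>
    obtain ⟨b, hb⟩ := ih (if s u v = true then a else !a)
    refine ⟨b, SimpleGraph.Reachable.trans ?_ hb⟩
    exact ((LftA_adj G s hs u v a _).2 ⟨hadj, rfl⟩).reachable

theorem lift_connected (G : SimpleGraph V) [DecidableRel G.Adj] (d : ℕ)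
    (hreg : G.IsRegularOfDegree d) (hG : G.Connected) (s : V → V → Bool)
    (hs : ∀ u v, s u v = s v u)
    (h : ¬ ∃ f : V → ℝ, f ≠ 0 ∧ Matrix.mulVec (SA G s) f = (d : ℝ) • f) :
    (lift G s hs).Connected := by
  classical
  obtain ⟨v0⟩ := hG.nonempty
  have hne : Nonempty (V × Bool) := ⟨(v0, true)⟩
  refine { preconnected := ?_ }
  by_cases hA : ∃ v, (lift G s hs).Reachable (v, true) (v, false)
  · obtain ⟨v, hv⟩ := hA
    have hvv : ∀ c c', (lift G s hs).Reachable (v, c) (v, c') := by
      intro c c'
      cases c <;> cases c'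
      · exact SimpleGraph.Reachable.refl _
      · exact hv.symm
      · exact hv
      · exact SimpleGraph.Reachable.refl _
    rintro ⟨u, a⟩ ⟨w, e⟩
    obtain ⟨c, hc⟩ := LftA_path G s hs (hG.preconnected u v) a
    obtain ⟨c', hc'⟩ := LftA_path G s hs (hG.preconnected w v) e
    exact (hc.trans (hvv c c')).trans hc'.symm
  · exfalso
    push Not at hA
    apply h
    have hex : ∀ v, ((lift G s hs).Reachable (v0, true) (v, true)) ↔
        ¬ ((lift G s hs).Reachable (v0, true) (v, false)) := by
      intro v
      constructor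
      · intro h1 h2
        exact hA v (h1.symm.trans h2)
      · intro h1
        obtain ⟨b, hb⟩ := LftA_path G s hs (hG.preconnected v0 v) true
        cases b
        · exact absurd hb h1
        · exact hb
    obtain ⟨f, hfdef⟩ : ∃ f : V → ℝ, f = fun v =>
        if (lift G s hs).Reachable (v0, true) (v, true) then 1 else -1 := ⟨_, rfl⟩
    have hfv : ∀ v, f v = if (lift G s hs).Reachable (v0, true) (v, true) then 1 else -1 :=
      fun v => by rw [hfdef]
    have key : ∀ u w, G.Adj u w → sg (s u w) * f w = f u := by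
      intro u w hadj
      rw [hfv, hfv]
      cases hsuw : s u w
      · -- the sign is minus
        have h1 : (lift G s hs).Adj (u, true) (w, false) :=
          (LftA_adj G s hs u w true false).2 ⟨hadj, by rw [hsuw]; rfl⟩
        have h2 : (lift G s hs).Reachable (v0, true) (u, true) ↔
            (lift G s hs).Reachable (v0, true) (w, false) :=
          ⟨fun h => h.trans h1.reachable, fun h => h.trans h1.reachable.symm⟩
        have h3 := hex w
        by_cases h4 : (lift G s hs).Reachable (v0, true) (w, true)
        · have h5 : ¬ (lift G s hs).Reachable (v0, true) (u, true) := fun h => h3.1 h4 (h2.1 h)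
          rw [if_pos h4, if_neg h5]
          simp [sg]
        · have h5 : (lift G s hs).Reachable (v0, true) (u, true) := by
            rw [h2]
            by_contra h6
            exact h4 (h3.2 h6)
          rw [if_neg h4, if_pos h5]
          simp [sg]
      · have h1 : (lift G s hs).Adj (u, true) (w, true) :=
          (LftA_adj G s hs u w true true).2 ⟨hadj, by rw [hsuw]; rfl⟩
        have h2 : (lift G s hs).Reachable (v0, true) (u, true) ↔
            (lift G s hs).Reachable (v0, true) (w, true) :=
          ⟨fun h => h.trans h1.reachable, fun h => h.trans h1.reachable.symm⟩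
        simp only [h2]
        simp [sg]
    refine ⟨f, ?_, ?_⟩
    · intro h0
      have h1 : f v0 = 0 := by rw [h0]; rfl
      rw [hfv] at h1
      split_ifs at h1 <;> norm_num at h1
    · funext u
      show ∑ w, SA G s u w * f w = (d : ℝ) * f u
      have h1 : ∀ w, SA G s u w * f w = if G.Adj u w then f u else 0 := by
        intro w
        unfold SA
        by_cases hadj : G.Adj u w
        · rw [if_pos hadj, if_pos hadj, key u w hadj]
        · rw [if_neg hadj, if_neg hadj, zero_mul]
      rw [Finset.sum_congr rfl fun w _ => h1 w, ← Finset.sum_filter, Finset.sum_const, nsmul_eq_mul,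
        ← SimpleGraph.neighborFinset_eq_filter, SimpleGraph.card_neighborFinset_eq_degree, hreg u]

end Pool.Agent.helper17.NR
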