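import Mathlib
import Pool.Agent.helper17.NR.Defs

set_option autoImplicit false
set_option linter.unusedSectionVars false
set_option linter.unusedVariables false

namespace Pool.Agent.helper17.NR

variable {V : Type*} [Fintype V] [DecidableEq V]

/-- The step of the lifted permutation: follow `σ` and change the sheet when `e` is false. -/
def LftB_perm (σ : Equiv.Perm V) (e : V → Bool) : Equiv.Perm (V × Bool) where
  toFun p := (σ p.1, if e p.1 then p.2 else !p.2)
  invFun p := (σ.symm p.1, if e (σ.symm p.1) then p.2 else !p.2)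
  left_inv := by
    rintro ⟨v, b⟩
    cases h : e v <;> simp [h]
  right_inv := by
    rintro ⟨v, b⟩
    cases h : e (σ.symm v) <;> simp [h]

theorem LftB_perm_apply (σ : Equiv.Perm V) (e : V → Bool) (v : V) (b : Bool) :
    LftB_perm σ e (v, b) = (σ v, if e v then b else !b) := rfl

theorem LftB_sg_step (x b : Bool) : sg (if x then b else !b) = sg b * sg x := by
  cases x <;> cases b <;> simp [sg]

theorem LftB_sg_sq (x : Bool) : sg x * sg x = 1 := by
  cases x <;> simp [sg]

theorem LftB_sg_inj (x y : Bool) (h : sg x = sg y) : x = y := by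
  cases x <;> cases y <;> simp [sg] at h ⊢ <;> norm_num at h

theorem LftB_sg_ne (x : Bool) : sg x ≠ 0 := by
  cases x <;> simp [sg]

/-- Powers of the lifted permutation. -/
theorem LftB_pow (σ : Equiv.Perm V) (e : V → Bool) (v : V) (b : Bool) (j : ℕ) :
    (((LftB_perm σ e) ^ j) (v, b)).1 = (σ ^ j) v ∧
    sg (((LftB_perm σ e) ^ j) (v, b)).2 = sg b * ∏ i ∈ Finset.range j, sg (e ((σ ^ i) v)) := by
  induction j with
  | zero => simp
  | succ j ih =>
    obtain ⟨h1, h2⟩ := ih
    set q := ((LftB_perm σ e) ^ j) (v, b) with hq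
    have h3 : ((LftB_perm σ e) ^ (j + 1)) (v, b) = LftB_perm σ e q := by
      rw [pow_succ', Equiv.Perm.mul_apply]
    have h4 : LftB_perm σ e q = (σ q.1, if e q.1 then q.2 else !q.2) := rfl
    rw [h3, h4]
    refine ⟨?_, ?_⟩
    · show σ q.1 = _
      rw [h1, pow_succ', Equiv.Perm.mul_apply]
    · show sg (if e q.1 then q.2 else !q.2) = _
      rw [LftB_sg_step, h2, h1, Finset.prod_range_succ]
      ring

theorem LftB_near (G : SimpleGraph V) [DecidableRel G.Adj] (k : ℕ)
    (σ : Equiv.Perm V) (hc : Cyc G k σ) (s : V → V → Bool) (hs : ∀ u v, s u v = s v u)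
    (σ' : Equiv.Perm (V × Bool)) (h1 : ∀ p, (σ' p).1 = σ p.1) (p : V × Bool)
    (hp : σ' p = p) : ∃ u, σ' u ≠ u ∧ (lift G s hs).Adj p u := by
  have h2 : σ p.1 = p.1 := by rw [← h1, hp]
  obtain ⟨u, hu, hadj⟩ := hc.near p.1 h2
  cases hsu : s p.1 u with
  | true =>
    refine ⟨(u, p.2), ?_, hadj, ?_⟩
    · intro h
      apply hu
      have := h1 (u, p.2)
      rw [h] at this
      exact this.symm
    · simp [hsu]
  | false =>
    refine ⟨(u, !p.2), ?_, hadj, ?_⟩
    · intro h
      apply hu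
      have := h1 (u, !p.2)
      rw [h] at this
      exact this.symm
    · simp [hsu]

/-- The permutation of the lift which follows `σ`. -/
theorem lift_cyc_pos (G : SimpleGraph V) [DecidableRel G.Adj] (k : ℕ) (hk : 3 ≤ k)
    (σ : Equiv.Perm V) (hc : Cyc G k σ) (s : V → V → Bool) (hs : ∀ u v, s u v = s v u)
    (h : ∀ u, σ u ≠ u → s u (σ u) = true) :
    ∃ σ' : Equiv.Perm (V × Bool), Cyc (lift G s hs) k σ' := by
  have hfst : ∀ p, (LftB_perm σ (fun _ => true) p).1 = σ p.1 := fun p => rfl
  have happ : ∀ v b, LftB_perm σ (fun _ => true) (v, b) = (σ v, b) := fun v b => rfl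
  have hpow : ∀ j v b, ((LftB_perm σ (fun _ => true)) ^ j) (v, b) = ((σ ^ j) v, b) := by
    intro j v b
    obtain ⟨h1, h2⟩ := LftB_pow σ (fun _ => true) v b j
    refine Prod.ext h1 ?_
    apply LftB_sg_inj
    rw [h2]
    simp [sg]
  refine ⟨LftB_perm σ (fun _ => true), ?_, ?_, ?_, ?_⟩
  · rintro ⟨v, b⟩ hv
    rw [happ] at hv ⊢
    have hne : σ v ≠ v := fun h0 => hv (by rw [h0])
    refine ⟨hc.adj v hne, ?_⟩
    simp [h v hne]
  · rintro ⟨v, b⟩
    rw [hpow, hc.per]
  · rintro ⟨v, b⟩ hv j hj hjk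
    rw [happ] at hv
    rw [hpow]
    have hne : σ v ≠ v := fun h0 => hv (by rw [h0])
    intro h0
    exact hc.mini v hne j hj hjk (Prod.ext_iff.mp h0).1
  · intro p hp
    exact LftB_near G k σ hc s hs _ hfst p hp

theorem lift_cyc_neg (G : SimpleGraph V) [DecidableRel G.Adj] (k : ℕ) (hk : 3 ≤ k)
    (σ : Equiv.Perm V) (hc : Cyc G k σ) (e : V → Bool)
    (he : ∀ v, σ v ≠ v → ∏ j ∈ Finset.range k, sg (e ((σ ^ j) v)) = -1)
    (s : V → V → Bool) (hs : ∀ u v, s u v = s v u) (h : ∀ u, σ u ≠ u → s u (σ u) = e u) :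
    ∃ σ' : Equiv.Perm (V × Bool), Cyc (lift G s hs) (2 * k) σ' := by
  set e' : V → Bool := fun v => if σ v = v then true else e v with he'
  have hfst : ∀ p, (LftB_perm σ e' p).1 = σ p.1 := fun p => rfl
  have happ : ∀ v b, LftB_perm σ e' (v, b) = (σ v, if e' v then b else !b) := fun v b => rfl
  have hmove : ∀ v b, LftB_perm σ e' (v, b) ≠ (v, b) → σ v ≠ v := by
    intro v b hv h0
    apply hv
    rw [happ, h0]
    simp [he', h0]
  have hprod : ∀ v, σ v ≠ v → ∏ j ∈ Finset.range k, sg (e' ((σ ^ j) v)) = -1 := by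
    intro v hv
    rw [← he v hv]
    apply Finset.prod_congr rfl
    intro j _
    have : σ ((σ ^ j) v) ≠ (σ ^ j) v := by
      intro h0
      apply hv
      have h1 : (σ ^ j) (σ v) = (σ ^ j) v := by
        rw [← Equiv.Perm.mul_apply, ← pow_succ, pow_succ', Equiv.Perm.mul_apply, h0]
      exact (σ ^ j).injective h1
    simp [he', this]
  have hper : ∀ v i, (σ ^ (k + i)) v = (σ ^ i) v := by
    intro v i
    rw [add_comm, pow_add, Equiv.Perm.mul_apply, hc.per]
  refine ⟨LftB_perm σ e', ?_, ?_, ?_, ?_⟩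
  · rintro ⟨v, b⟩ hv
    have hne : σ v ≠ v := hmove v b hv
    rw [happ]
    refine ⟨hc.adj v hne, ?_⟩
    show s v (σ v) = true ↔ b = if e' v then b else !b
    rw [h v hne]
    have : e' v = e v := by simp [he', hne]
    rw [this]
    cases e v <;> simp
  · rintro ⟨v, b⟩
    obtain ⟨h1, h2⟩ := LftB_pow σ e' v b (2 * k)
    refine Prod.ext ?_ ?_
    · rw [h1, two_mul, hper, hc.per]
    · apply LftB_sg_inj
      rw [h2, two_mul, Finset.prod_range_add]
      have h3 : ∏ x ∈ Finset.range k, sg (e' ((σ ^ (k + x)) v)) =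
          ∏ x ∈ Finset.range k, sg (e' ((σ ^ x) v)) := by
        apply Finset.prod_congr rfl
        intro x _
        rw [hper]
      rw [h3, ← Finset.prod_mul_distrib, Finset.prod_eq_one (fun x _ => LftB_sg_sq _), mul_one]
  · rintro ⟨v, b⟩ hv j hj hjk h0
    have hne : σ v ≠ v := hmove v b hv
    obtain ⟨h1, h2⟩ := LftB_pow σ e' v b j
    rw [h0] at h1 h2
    have h1' : (σ ^ j) v = v := h1.symm
    rcases lt_trichotomy j k with hlt | heq | hgt
    · exact hc.mini v hne j hj hlt h1'
    · subst heq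
      rw [hprod v hne] at h2
      have h3 : sg b = 0 := by
        have : sg b = sg b * -1 := h2
        linarith
      exact LftB_sg_ne b h3
    · obtain ⟨i, rfl⟩ := Nat.exists_eq_add_of_lt hgt
      have h4 : (σ ^ (i + 1)) v = v := by
        rw [← hper v (i + 1), ← add_assoc]
        exact h1'
      exact hc.mini v hne (i + 1) (Nat.succ_pos i) (by omega) h4
  · intro p hp
    exact LftB_near G k σ hc s hs _ hfst p hp

/-- There are signs on the cycles with product `-1` on every cycle. -/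
theorem exists_neg (G : SimpleGraph V) (k : ℕ) (hk : 3 ≤ k) (σ : Equiv.Perm V) (hc : Cyc G k σ) :
    ∃ e : V → Bool, ∀ v, σ v ≠ v → ∏ j ∈ Finset.range k, sg (e ((σ ^ j) v)) = -1 := by
  classical
  let S : Setoid V := Equiv.Perm.SameCycle.setoid σ
  let rep : V → V := fun v => (Quotient.mk S v).out
  have hrep : ∀ v, σ.SameCycle (rep v) v := fun v => Quotient.exact (Quotient.out_eq (Quotient.mk S v))
  have hreq : ∀ v w, σ.SameCycle v w → rep v = rep w := by
    intro v w hvw
    show (Quotient.mk S v).out = (Quotient.mk S w).out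
    have : Quotient.mk S v = Quotient.mk S w := Quotient.sound hvw
    rw [this]
  refine ⟨fun v => decide (v ≠ rep v), ?_⟩
  intro v hv
  have hmod : ∀ i : ℕ, (σ ^ (i % k)) v = (σ ^ i) v := by
    intro i
    have hp : Function.IsPeriodicPt σ k v := by
      show (σ^[k]) v = v
      rw [← Equiv.Perm.coe_pow]
      exact hc.per v
    have := hp.iterate_mod_apply i
    rw [← Equiv.Perm.coe_pow, ← Equiv.Perm.coe_pow] at this
    exact this
  obtain ⟨i, hi⟩ : ∃ i : ℕ, (σ ^ i) v = rep v := by
    obtain ⟨i, _, hi⟩ := (hrep v).symm.exists_pow_eq'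
    exact ⟨i, hi⟩
  have hk0 : 0 < k := by omega
  have hi2 : (σ ^ (i % k)) v = rep v := by rw [hmod, hi]
  have hmem : i % k ∈ Finset.range k := Finset.mem_range.mpr (Nat.mod_lt _ hk0)
  have hrj : ∀ j, rep ((σ ^ j) v) = rep v := by
    intro j
    apply hreq
    exact (Equiv.Perm.sameCycle_pow_left).mpr (Equiv.Perm.SameCycle.refl σ v)
  have hval : ∀ j ∈ Finset.range k,
      sg (decide ((σ ^ j) v ≠ rep ((σ ^ j) v))) = if j = i % k then -1 else 1 := by
    intro j hj
    rw [hrj]
    by_cases hji : j = i % k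
    · rw [if_pos hji, hji, hi2]
      simp [sg]
    · rw [if_neg hji]
      have hne : (σ ^ j) v ≠ rep v := by
        intro h0
        rw [← hi2] at h0
        have hj' := Finset.mem_range.mp hj
        have hi' := Finset.mem_range.mp hmem
        rcases lt_or_gt_of_ne hji with hlt | hgt
        · have h5 : (σ ^ (i % k - j)) v = v := by
            have h6 : (σ ^ j) ((σ ^ (i % k - j)) v) = (σ ^ j) v := by
              rw [← Equiv.Perm.mul_apply, ← pow_add, Nat.add_sub_cancel' hlt.le, h0]
            exact (σ ^ j).injective h6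
          exact hc.mini v hv _ (Nat.sub_pos_of_lt hlt) (by omega) h5
        · have h5 : (σ ^ (j - i % k)) v = v := by
            have h6 : (σ ^ (i % k)) ((σ ^ (j - i % k)) v) = (σ ^ (i % k)) v := by
              rw [← Equiv.Perm.mul_apply, ← pow_add, Nat.add_sub_cancel' (le_of_lt hgt), h0]
            exact (σ ^ (i % k)).injective h6
          exact hc.mini v hv _ (Nat.sub_pos_of_lt hgt) (by omega) h5
      simp [sg, hne]
  show ∏ j ∈ Finset.range k, sg (decide ((σ ^ j) v ≠ rep ((σ ^ j) v))) = -1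
  rw [Finset.prod_congr rfl hval, Finset.prod_ite_eq' (Finset.range k) (i % k) (fun _ => (-1 : ℝ)),
    if_pos hmem]

end Pool.Agent.helper17.NR
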