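import Mathlib
import Pool.Agent.helper17.NR.Defs

set_option autoImplicit false
set_option linter.unusedSectionVars false
set_option linter.unusedVariables false

namespace Pool.Agent.helper17.NR

variable {V : Type*} [Fintype V] [DecidableEq V]

theorem K_univ (N : Matrix V V ℝ) : K Finset.univ N = N := by
  funext i j
  simp [K]

/-- Entry of the adjugate when row `a` is a unit vector: column `a` may be cleaned. -/
theorem Rec_det_col (C : Matrix V V ℝ) (a : V) (h : C a = Pi.single a 1) :
    C.det = (C.updateCol a (Pi.single a 1)).det := by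
  have h1 : C.updateRow a (Pi.single a 1) = C := by
    rw [← h]; exact Matrix.updateRow_eq_self C a
  have h2 : C.adjugate a a = C.det := by
    rw [Matrix.adjugate_apply, h1]
  have h3 : C.adjugate a a = (C.updateCol a (Pi.single a 1)).det := by
    have h4 : C.adjugate a a = C.transpose.adjugate a a := by
      rw [← Matrix.adjugate_transpose]; rfl
    rw [h4, Matrix.adjugate_apply, ← Matrix.det_transpose, Matrix.updateRow_transpose,
      Matrix.transpose_transpose]
  rw [← h2, h3]

theorem adj_diag (N : Matrix V V ℝ) (H : Finset V) (b : V) (hb : b ∈ H) :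
    (K H N).adjugate b b = (K (H.erase b) N).det := by
  rw [Matrix.adjugate_apply, Rec_det_col _ b (by simp)]
  congr 1
  funext i j
  by_cases hj : j = b
  · subst hj
    simp only [Matrix.updateCol_self, K, Finset.mem_erase]
    by_cases hi : i = j
    · subst hi; simp
    · simp [hi]
  · rw [Matrix.updateCol_ne hj]
    by_cases hi : i = b
    · subst hi
      rw [Matrix.updateRow_self]
      simp only [K, Finset.mem_erase]
      simp [Pi.single_apply, eq_comm]
    · rw [Matrix.updateRow_ne hi]
      simp only [K, Finset.mem_erase]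
      simp [hi, hj]

theorem Rec_K_symm (N : Matrix V V ℝ) (hN : N.IsSymm) (H : Finset V) : (K H N).IsSymm := by
  ext i j
  simp only [Matrix.transpose_apply, K]
  have h := hN.apply i j
  by_cases h1 : i ∈ H <;> by_cases h2 : j ∈ H <;> simp [h1, h2, h, eq_comm]

theorem adj_symm (N : Matrix V V ℝ) (hN : N.IsSymm) (H : Finset V) (a b : V) :
    (K H N).adjugate a b = (K H N).adjugate b a := by
  have h := Matrix.adjugate_transpose (K H N)
  rw [(Rec_K_symm N hN H).eq] at h
  have h2 := congrFun (congrFun h a) b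
  rw [← h2]; rfl

/-- Path step for one matrix. -/
theorem Rec_step (A : Matrix V V ℝ) (a b : V) (hab : a ≠ b) (c : V) (hca : c ≠ a) :
    ((A.updateRow b (Pi.single a 1)).updateRow a (Pi.single c 1)).det =
      - (((A.updateRow a (Pi.single a 1)).updateCol a (Pi.single a 1)).updateRow b
          (Pi.single c 1)).det := by
  have h1 : ((A.updateRow b (Pi.single a 1)).updateRow a (Pi.single c 1)).det =
      - ((A.updateRow a (Pi.single a 1)).updateRow b (Pi.single c 1)).det := by
    have h2 : ((A.updateRow b (Pi.single a 1)).updateRow a (Pi.single c 1)) =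
        ((A.updateRow a (Pi.single a 1)).updateRow b (Pi.single c 1)).submatrix
          (Equiv.swap a b) id := by
      funext i j
      rw [Matrix.submatrix_apply, id]
      by_cases hi : i = a
      · subst hi
        rw [Equiv.swap_apply_left, Matrix.updateRow_self, Matrix.updateRow_self]
      · by_cases hi2 : i = b
        · subst hi2
          rw [Equiv.swap_apply_right, Matrix.updateRow_ne hi, Matrix.updateRow_self,
            Matrix.updateRow_ne hab, Matrix.updateRow_self]
        · rw [Equiv.swap_apply_of_ne_of_ne hi hi2, Matrix.updateRow_ne hi,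
            Matrix.updateRow_ne hi2, Matrix.updateRow_ne hi2, Matrix.updateRow_ne hi]
    rw [h2, Matrix.det_permute, Equiv.Perm.sign_swap hab]
    simp
  rw [h1]
  congr 1
  rw [Rec_det_col ((A.updateRow a (Pi.single a 1)).updateRow b (Pi.single c 1)) a
    (by rw [Matrix.updateRow_ne hab, Matrix.updateRow_self])]
  congr 1
  funext i j
  by_cases hj : j = a
  · subst hj
    rw [Matrix.updateCol_self]
    by_cases hi : i = b
    · subst hi
      rw [Matrix.updateRow_self]
      simp [hab.symm, hca.symm]
    · rw [Matrix.updateRow_ne hi, Matrix.updateCol_self]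
  · rw [Matrix.updateCol_ne hj]
    by_cases hi : i = b
    · subst hi
      rw [Matrix.updateRow_self, Matrix.updateRow_self]
    · rw [Matrix.updateRow_ne hi, Matrix.updateRow_ne hi, Matrix.updateCol_ne hj]

theorem Rec_K_erase (N : Matrix V V ℝ) (H : Finset V) (a : V) :
    ((K H N).updateRow a (Pi.single a 1)).updateCol a (Pi.single a 1) = K (H.erase a) N := by
  funext i j
  by_cases hj : j = a
  · subst hj
    simp only [Matrix.updateCol_self, K, Finset.mem_erase]
    by_cases hi : i = j
    · subst hi; simp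
    · simp [hi]
  · rw [Matrix.updateCol_ne hj]
    by_cases hi : i = a
    · subst hi
      rw [Matrix.updateRow_self]
      simp only [K, Finset.mem_erase]
      simp [Pi.single_apply, eq_comm]
    · rw [Matrix.updateRow_ne hi]
      simp only [K, Finset.mem_erase]
      simp [hi, hj]

theorem Rec_adj_one (N : Matrix V V ℝ) (H : Finset V) (a b : V) (ha : a ∈ H) (hab : a ≠ b) :
    (K H N).adjugate a b =
      - ∑ c ∈ H.erase a, N a c * (K (H.erase a) N).adjugate c b := by
  set B := (K H N).updateRow b (Pi.single a 1) with hB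
  have h1 : (K H N).adjugate a b = B.det := by rw [Matrix.adjugate_apply]
  have h2 : B.det = ∑ c, B a c * B.adjugate c a := by
    have h3 := congrFun (congrFun (Matrix.mul_adjugate B) a) a
    rw [Matrix.mul_apply] at h3
    rw [h3]; simp
  rw [h1, h2, ← Finset.sum_neg_distrib]
  have h4 : ∀ c, B a c = K H N a c := by
    intro c
    rw [hB, Matrix.updateRow_ne hab]
  have h5 : ∀ c, c ∉ H.erase a → B a c * B.adjugate c a = 0 := by
    intro c hc
    by_cases hca : c = a
    · subst hca
      have : B.adjugate c c = 0 := by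
        rw [Matrix.adjugate_apply]
        apply Matrix.det_zero_of_row_eq hab
        rw [Matrix.updateRow_self, Matrix.updateRow_ne hab.symm, hB, Matrix.updateRow_self]
      rw [this, mul_zero]
    · have hcH : c ∉ H := fun h => hc (Finset.mem_erase.mpr ⟨hca, h⟩)
      have : B a c = 0 := by
        rw [h4]
        simp only [K]
        rw [if_neg (by tauto), if_neg (fun h => hca h.symm)]
      rw [this, zero_mul]
  rw [← Finset.sum_subset (Finset.subset_univ (H.erase a)) (fun c _ hc => h5 c hc)]
  apply Finset.sum_congr rfl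
  intro c hc
  obtain ⟨hca, hcH⟩ := Finset.mem_erase.mp hc
  rw [h4, Matrix.adjugate_apply, hB, Rec_step _ a b hab c hca, Rec_K_erase,
    Matrix.adjugate_apply]
  have : K H N a c = N a c := by
    simp only [K]
    rw [if_pos ⟨ha, hcH⟩]
  rw [this]
  ring

/-- `g` does not depend on row and column `a`. -/
def Rec_Inv (a : V) (g : Matrix V V ℝ → ℝ) : Prop :=
  ∀ M M' : Matrix V V ℝ, (∀ i j, i ≠ a → j ≠ a → M i j = M' i j) → g M = g M'

theorem Rec_T_apply_left (u v i j : V) (huv : u ≠ v) :
    T u v i j = if (i = u ∧ j = v) ∨ (i = v ∧ j = u) then 1 else 0 := by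
  simp only [T, Matrix.add_apply, Matrix.single_apply]
  by_cases h1 : u = i ∧ v = j
  · obtain ⟨rfl, rfl⟩ := h1
    have : ¬ (v = u ∧ u = v) := fun h => huv h.2
    simp [this]
  · by_cases h2 : v = i ∧ u = j
    · obtain ⟨rfl, rfl⟩ := h2
      simp [h1]
    · have h3 : ¬ ((i = u ∧ j = v) ∨ (i = v ∧ j = u)) := by
        rintro (⟨rfl, rfl⟩ | ⟨rfl, rfl⟩)
        · exact h1 ⟨rfl, rfl⟩
        · exact h2 ⟨rfl, rfl⟩
      simp [h1, h2, h3]

theorem Rec_T_away (u v a i j : V) (h : u = a ∨ v = a) (hi : i ≠ a) (hj : j ≠ a) :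
    T u v i j = 0 := by
  simp only [T, Matrix.add_apply, Matrix.single_apply]
  rcases h with rfl | rfl
  · simp [hi.symm, hj.symm]
  · simp [hi.symm, hj.symm]

theorem Rec_Av_inv (a : V) (g : Matrix V V ℝ → ℝ) (hg : Rec_Inv a g) (L : List (V × V)) :
    Rec_Inv a (Av g L) := by
  induction L with
  | nil => exact hg
  | cons p L ih =>
    intro M M' h
    simp only [Av]
    rw [ih (M - T p.1 p.2) (M' - T p.1 p.2), ih (M + T p.1 p.2) (M' + T p.1 p.2)]
    · intro i j hi hj; simp [h i j hi hj]
    · intro i j hi hj; simp [h i j hi hj]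

theorem Rec_Av_touch (a : V) (g : Matrix V V ℝ → ℝ) (hg : Rec_Inv a g) (p : V × V)
    (hp : p.1 = a ∨ p.2 = a) (L : List (V × V)) (N : Matrix V V ℝ) :
    Av g L (N - T p.1 p.2) = Av g L N ∧ Av g L (N + T p.1 p.2) = Av g L N := by
  constructor
  · apply Rec_Av_inv a g hg L
    intro i j hi hj
    simp [Rec_T_away p.1 p.2 a i j hp hi hj]
  · apply Rec_Av_inv a g hg L
    intro i j hi hj
    simp [Rec_T_away p.1 p.2 a i j hp hi hj]

theorem Rec_T_row (u v a c : V) (h : ¬ (u = a ∨ v = a)) : T u v a c = 0 := by
  push Not at h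
  simp only [T, Matrix.add_apply, Matrix.single_apply]
  simp [h.1, h.2]

theorem Rec_Av_one (L : List (V × V)) (hL : ∀ p ∈ L, p.1 ≠ p.2) (a c : V)
    (g : Matrix V V ℝ → ℝ) (hg : Rec_Inv a g) (N : Matrix V V ℝ) :
    Av (fun M => M a c * g M) L N = N a c * Av g L N := by
  induction L generalizing N with
  | nil => rfl
  | cons p L ih =>
    have ih' := ih (fun q hq => hL q (List.mem_cons_of_mem _ hq))
    simp only [Av]
    rw [ih', ih']
    by_cases hp : p.1 = a ∨ p.2 = a
    · obtain ⟨h1, h2⟩ := Rec_Av_touch a g hg p hp L N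
      rw [h1, h2]
      simp only [Matrix.sub_apply, Matrix.add_apply]
      ring
    · simp only [Matrix.sub_apply, Matrix.add_apply, Rec_T_row p.1 p.2 a c hp]
      ring

theorem Rec_cnt_cons (p : V × V) (L : List (V × V)) (u v : V) (hp : p.1 ≠ p.2) :
    (cnt (p :: L) u v : ℝ) = (cnt L u v : ℝ) + T p.1 p.2 u v := by
  rw [Rec_T_apply_left p.1 p.2 u v hp]
  simp only [cnt, List.count_cons]
  by_cases h1 : u = p.1 ∧ v = p.2
  · obtain ⟨h1, h2⟩ := h1
    have e1 : p = (u, v) := by rw [h1, h2]
    have e2 : ¬ p = (v, u) := by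
      rw [e1]; intro h
      apply hp
      rw [Prod.mk.injEq] at h
      rw [← h1, ← h2]; exact h.1
    have e3 : ((u, v) == (v, u)) = false := by
      rw [← e1]
      simp [e2]
    simp [e1, e3]
    ring
  · by_cases h2 : u = p.2 ∧ v = p.1
    · obtain ⟨h3, h4⟩ := h2
      have e1 : p = (v, u) := by rw [h3, h4]
      have e2 : ¬ p = (u, v) := by
        intro h
        exact h1 ⟨by rw [h], by rw [h]⟩
      have e3 : ((v, u) == (u, v)) = false := by
        rw [← e1]
        simp [e2]
      simp [e1, e3]
      ring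
    · have e1 : ¬ p = (u, v) := by
        rintro rfl; exact h1 ⟨rfl, rfl⟩
      have e2 : ¬ p = (v, u) := by
        rintro rfl; exact h2 ⟨rfl, rfl⟩
      simp [e1, e2, h1, h2]

theorem Rec_Av_two (L : List (V × V)) (hL : ∀ p ∈ L, p.1 ≠ p.2) (v a b : V)
    (g : Matrix V V ℝ → ℝ) (hg : Rec_Inv v g) (N : Matrix V V ℝ) :
    Av (fun M => M v a * M v b * g M) L N =
      (N v a * N v b + (if a = b then (cnt L v a : ℝ) else 0)) * Av g L N := by
  induction L generalizing N with
  | nil => simp [Av, cnt]
  | cons p L ih =>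
    have ih' := ih (fun q hq => hL q (List.mem_cons_of_mem _ hq))
    have hpp : p.1 ≠ p.2 := hL p List.mem_cons_self
    simp only [Av]
    rw [ih', ih', Rec_cnt_cons p L v a hpp]
    by_cases hp : p.1 = v ∨ p.2 = v
    · obtain ⟨h1, h2⟩ := Rec_Av_touch v g hg p hp L N
      rw [h1, h2]
      have h3 : T p.1 p.2 v a * T p.1 p.2 v b = if a = b then T p.1 p.2 v a else 0 := by
        rw [Rec_T_apply_left p.1 p.2 v a hpp, Rec_T_apply_left p.1 p.2 v b hpp]
        by_cases hab : a = b
        · subst hab
          simp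
        · rw [if_neg hab]
          by_cases h4 : (v = p.1 ∧ a = p.2) ∨ (v = p.2 ∧ a = p.1)
          · have h5 : ¬ ((v = p.1 ∧ b = p.2) ∨ (v = p.2 ∧ b = p.1)) := by
              rintro (⟨h6, h7⟩ | ⟨h6, h7⟩) <;> rcases h4 with ⟨h8, h9⟩ | ⟨h8, h9⟩
              · exact hab (h9.trans h7.symm)
              · exact hpp (h6.symm.trans h8)
              · exact hpp (h8.symm.trans h6)
              · exact hab (h9.trans h7.symm)
            rw [if_neg h5, mul_zero]
          · rw [if_neg h4, zero_mul]
      simp only [Matrix.sub_apply, Matrix.add_apply]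
      by_cases hab : a = b
      · rw [if_pos hab] at h3
        rw [if_pos hab, if_pos hab]
        linear_combination (Av g L N) * h3
      · rw [if_neg hab] at h3
        rw [if_neg hab, if_neg hab]
        linear_combination (Av g L N) * h3
    · simp only [Matrix.sub_apply, Matrix.add_apply, Rec_T_row p.1 p.2 v a hp,
        Rec_T_row p.1 p.2 v b hp]
      split_ifs <;> ring

theorem Rec_Av_congr (f g : Matrix V V ℝ → ℝ) (L : List (V × V)) (N : Matrix V V ℝ)
    (hN : N.IsSymm) (h : ∀ M : Matrix V V ℝ, M.IsSymm → f M = g M) : Av f L N = Av g L N := by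
  induction L generalizing N with
  | nil => exact h N hN
  | cons p L ih =>
    have hT : (T p.1 p.2 : Matrix V V ℝ).IsSymm := by
      unfold T Matrix.IsSymm
      rw [Matrix.transpose_add, Matrix.transpose_single, Matrix.transpose_single, add_comm]
    simp only [Av]
    rw [ih _ (hN.sub hT), ih _ (hN.add hT)]

theorem Rec_Av_neg (f : Matrix V V ℝ → ℝ) (L : List (V × V)) (N : Matrix V V ℝ) :
    Av (fun M => - f M) L N = - Av f L N := by
  induction L generalizing N with
  | nil => rfl
  | cons p L ih =>
    simp only [Av]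
    rw [ih, ih]; ring

theorem Rec_Av_add (f g : Matrix V V ℝ → ℝ) (L : List (V × V)) (N : Matrix V V ℝ) :
    Av (fun M => f M + g M) L N = Av f L N + Av g L N := by
  induction L generalizing N with
  | nil => rfl
  | cons p L ih =>
    simp only [Av]
    rw [ih, ih]; ring

theorem Rec_Av_zero (L : List (V × V)) (N : Matrix V V ℝ) :
    Av (fun _ => 0) L N = 0 := by
  induction L generalizing N with
  | nil => rfl
  | cons p L ih =>
    simp only [Av]
    rw [ih, ih]; ring

theorem Rec_Av_sum {ι : Type*} (s : Finset ι) (f : ι → Matrix V V ℝ → ℝ) (L : List (V × V))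
    (N : Matrix V V ℝ) :
    Av (fun M => ∑ i ∈ s, f i M) L N = ∑ i ∈ s, Av (f i) L N := by
  classical
  induction s using Finset.induction_on with
  | empty => simp [Rec_Av_zero]
  | insert i s hi ih =>
    simp only [Finset.sum_insert hi]
    rw [Rec_Av_add, ih]

theorem Rec_inv_K (H : Finset V) (a : V) (F : Matrix V V ℝ → ℝ) :
    Rec_Inv a (fun M => F (K (H.erase a) M)) := by
  intro M M' h
  have : K (H.erase a) M = K (H.erase a) M' := by
    funext i j
    simp only [K, Finset.mem_erase]
    by_cases h1 : (i ≠ a ∧ i ∈ H) ∧ j ≠ a ∧ j ∈ H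
    · rw [if_pos h1, if_pos h1, h i j h1.1.1 h1.2.1]
    · rw [if_neg h1, if_neg h1]
  simp only [this]

/-- Path step for the expected adjugate. -/
theorem rec_adj (L : List (V × V)) (hL : ∀ p ∈ L, p.1 ≠ p.2) (N : Matrix V V ℝ) (hN : N.IsSymm)
    (H : Finset V) (a b : V) (ha : a ∈ H) (hb : b ∈ H) (hab : a ≠ b) :
    Av (fun M => (K H M).adjugate a b) L N =
      - ∑ c ∈ H.erase a, N a c * Av (fun M => (K (H.erase a) M).adjugate c b) L N := by
  have h1 : (fun M : Matrix V V ℝ => (K H M).adjugate a b) =
      fun M => - ∑ c ∈ H.erase a, M a c * (K (H.erase a) M).adjugate c b := by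
    funext M
    exact Rec_adj_one M H a b ha hab
  rw [h1, Rec_Av_neg, Rec_Av_sum]
  congr 1
  apply Finset.sum_congr rfl
  intro c _
  exact Rec_Av_one L hL a c (fun M => (K (H.erase a) M).adjugate c b)
    (Rec_inv_K H a (fun M => M.adjugate c b)) N

theorem Rec_det_one (N : Matrix V V ℝ) (hN : N.IsSymm) (H : Finset V) (v : V) (hv : v ∈ H) :
    (K H N).det = N v v * (K (H.erase v) N).det -
      ∑ a ∈ H.erase v, ∑ b ∈ H.erase v,
        N v a * N v b * (K (H.erase v) N).adjugate a b := by
  have h1 : (K H N).det = ∑ c, K H N v c * (K H N).adjugate c v := by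
    have h3 := congrFun (congrFun (Matrix.mul_adjugate (K H N)) v) v
    rw [Matrix.mul_apply] at h3
    rw [h3]; simp
  have h2 : ∑ c, K H N v c * (K H N).adjugate c v =
      ∑ c ∈ H, K H N v c * (K H N).adjugate c v := by
    symm
    apply Finset.sum_subset (Finset.subset_univ H)
    intro c _ hc
    have : K H N v c = 0 := by
      simp only [K]
      rw [if_neg (by tauto), if_neg (by rintro rfl; exact hc hv)]
    rw [this, zero_mul]
  rw [h1, h2, ← Finset.add_sum_erase H _ hv, adj_diag N H v hv]
  have h4 : ∀ c ∈ H, K H N v c = N v c := by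
    intro c hc
    simp only [K]
    rw [if_pos ⟨hv, hc⟩]
  rw [h4 v hv, sub_eq_add_neg, ← Finset.sum_neg_distrib]
  congr 1
  apply Finset.sum_congr rfl
  intro b hb
  obtain ⟨hbv, hbH⟩ := Finset.mem_erase.mp hb
  rw [h4 b hbH, adj_symm N hN H b v, Rec_adj_one N H v b hv hbv.symm, mul_neg, Finset.mul_sum]
  congr 1
  apply Finset.sum_congr rfl
  intro a _
  rw [adj_symm N hN (H.erase v) a b]
  ring

/-- Vertex deletion for the expected determinant. -/
theorem rec_det (L : List (V × V)) (hL : ∀ p ∈ L, p.1 ≠ p.2) (N : Matrix V V ℝ) (hN : N.IsSymm)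
    (H : Finset V) (v : V) (hv : v ∈ H) :
    Av (fun M => (K H M).det) L N =
      N v v * Av (fun M => (K (H.erase v) M).det) L N
      - ∑ a ∈ H.erase v, ((N v a) ^ 2 + (cnt L v a : ℝ)) *
          Av (fun M => (K ((H.erase v).erase a) M).det) L N
      - ∑ a ∈ H.erase v, ∑ b ∈ (H.erase v).erase a, N v a * N v b *
          Av (fun M => (K (H.erase v) M).adjugate a b) L N := by
  have h0 : Av (fun M => (K H M).det) L N =
      Av (fun M => M v v * (K (H.erase v) M).det +
        - ∑ a ∈ H.erase v, ∑ b ∈ H.erase v,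
          M v a * M v b * (K (H.erase v) M).adjugate a b) L N := by
    apply Rec_Av_congr _ _ L N hN
    intro M hM
    rw [Rec_det_one M hM H v hv, sub_eq_add_neg]
  rw [h0, Rec_Av_add, Rec_Av_neg, Rec_Av_sum,
    Rec_Av_one L hL v v (fun M => (K (H.erase v) M).det)
      (Rec_inv_K H v (fun M => M.det)) N]
  have h1 : ∀ a ∈ H.erase v,
      Av (fun M => ∑ b ∈ H.erase v, M v a * M v b * (K (H.erase v) M).adjugate a b) L N =
      ((N v a) ^ 2 + (cnt L v a : ℝ)) *
          Av (fun M => (K ((H.erase v).erase a) M).det) L N +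
      ∑ b ∈ (H.erase v).erase a, N v a * N v b *
          Av (fun M => (K (H.erase v) M).adjugate a b) L N := by
    intro a ha
    rw [Rec_Av_sum]
    have h2 : ∀ b ∈ H.erase v,
        Av (fun M => M v a * M v b * (K (H.erase v) M).adjugate a b) L N =
        (N v a * N v b + (if a = b then (cnt L v a : ℝ) else 0)) *
          Av (fun M => (K (H.erase v) M).adjugate a b) L N := by
      intro b _
      exact Rec_Av_two L hL v a b (fun M => (K (H.erase v) M).adjugate a b)
        (Rec_inv_K H v (fun M => M.adjugate a b)) N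
    rw [Finset.sum_congr rfl h2, ← Finset.add_sum_erase (H.erase v) _ ha]
    congr 1
    · have h3 : (fun M : Matrix V V ℝ => (K (H.erase v) M).adjugate a a) =
          fun M => (K ((H.erase v).erase a) M).det := by
        funext M
        exact adj_diag M (H.erase v) a ha
      rw [h3, if_pos rfl]
      ring
    · apply Finset.sum_congr rfl
      intro b hb
      obtain ⟨hba, _⟩ := Finset.mem_erase.mp hb
      rw [if_neg (fun h => hba h.symm), add_zero]
  rw [Finset.sum_congr rfl h1, Finset.sum_add_distrib]
  ring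

end Pool.Agent.helper17.NR
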