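import Mathlib
import Pool.Agent.helper17.NR.Defs
import Pool.Agent.helper17.NR.Rec
import Pool.Agent.helper17.NR.Core

set_option autoImplicit false
set_option linter.unusedSectionVars false

namespace Pool.Agent.helper17.NR

variable {V : Type*} [Fintype V] [DecidableEq V]

theorem Bnd_Av_const (c : ℝ) (L : List (V × V)) (N : Matrix V V ℝ) :
    Av (fun _ => c) L N = c := by
  induction L generalizing N with
  | nil => rfl
  | cons p L ih =>
    unfold Av
    rw [ih, ih]
    ring

theorem Bnd_K_empty (N : Matrix V V ℝ) : K ∅ N = 1 := by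
  ext i j
  unfold K
  by_cases h : i = j
  · subst h
    simp
  · simp [h]

theorem Bnd_FM_symm {k : ℕ} (hk : 3 ≤ k) {G : SimpleGraph V} {σ : Equiv.Perm V}
    (hc : Cyc G k σ) (ε : V → ℝ) (u w : V) : FM σ ε u w = FM σ ε w u := by
  by_cases h : u = w
  · subst h
    rfl
  · unfold FM
    rw [if_neg h, if_neg (fun h' : w = u => h h'.symm)]
    by_cases h1 : σ u = w
    · have hu : σ u ≠ u := fun h' => h (h'.symm.trans h1)
      have h2 : σ w ≠ u := by
        intro h2
        apply hc.mini u hu 2 (by norm_num) (by omega)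
        rw [pow_two, Equiv.Perm.mul_apply, h1, h2]
      rw [if_pos h1, if_neg h2, if_pos h1]
    · rw [if_neg h1]
      by_cases h2 : σ w = u
      · rw [if_pos h2, if_pos h2]
      · rw [if_neg h2, if_neg h2, if_neg h1]

theorem Bnd_key_inj {u v : V} (h : key u = key v) : u = v := by
  unfold key at h
  exact (Fintype.equivFin V).injective (Fin.ext h)

theorem Bnd_mem_EL (G : SimpleGraph V) [DecidableRel G.Adj] (σ : Equiv.Perm V) (u v : V) :
    (u, v) ∈ EL G σ ↔ G.Adj u v ∧ σ u ≠ v ∧ σ v ≠ u ∧ key u < key v := by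
  unfold EL
  rw [Finset.mem_toList, Finset.mem_filter]
  simp

theorem Bnd_nodup_EL (G : SimpleGraph V) [DecidableRel G.Adj] (σ : Equiv.Perm V) :
    (EL G σ).Nodup := Finset.nodup_toList _

theorem Bnd_count (G : SimpleGraph V) [DecidableRel G.Adj] {k : ℕ} (hk : 3 ≤ k)
    (σ : Equiv.Perm V) (hc : Cyc G k σ) (ε : V → ℝ) (hε : ∀ v, ε v = 1 ∨ ε v = -1)
    (v a : V) (hva : a ≠ v) :
    (FM σ ε v a) ^ 2 + (cnt (EL G σ) v a : ℝ) = if G.Adj v a then (1 : ℝ) else 0 := by
  have hε2 : ∀ w, ε w ^ 2 = 1 := by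
    intro w
    rcases hε w with h | h <;> rw [h] <;> norm_num
  unfold cnt
  rw [(Bnd_nodup_EL G σ).count, (Bnd_nodup_EL G σ).count]
  simp only [Bnd_mem_EL]
  by_cases h1 : σ v = a
  · have hv : σ v ≠ v := fun h => hva (h1.symm.trans h)
    have hadj : G.Adj v a := h1 ▸ hc.adj v hv
    have hF : FM σ ε v a = ε v := by
      rw [Core_FM σ ε v a hv, if_pos h1.symm]
    rw [hF, hε2, if_pos hadj, if_neg (fun h => h.2.1 h1), if_neg (fun h => h.2.2.1 h1)]
    norm_num
  · by_cases h2 : σ a = v
    · have ha : σ a ≠ a := fun h => hva (h.symm.trans h2)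
      have hadj : G.Adj v a := by
        have := hc.adj a ha
        rw [h2] at this
        exact this.symm
      have hF : FM σ ε v a = ε a := by
        rw [Bnd_FM_symm hk hc, Core_FM σ ε a v ha, if_pos h2.symm]
      rw [hF, hε2, if_pos hadj, if_neg (fun h => h.2.2.1 h2), if_neg (fun h => h.2.1 h2)]
      norm_num
    · have hF : FM σ ε v a = 0 := by
        unfold FM
        rw [if_neg (fun h : v = a => hva h.symm), if_neg h1, if_neg h2]
      rw [hF]
      by_cases hadj : G.Adj v a
      · rw [if_pos hadj]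
        rcases lt_or_ge (key v) (key a) with h3 | h3
        · rw [if_pos ⟨hadj, h1, h2, h3⟩, if_neg (fun h => absurd h.2.2.2 (by omega))]
          norm_num
        · have h4 : key a < key v := by
            rcases Nat.lt_or_eq_of_le h3 with h5 | h5
            · exact h5
            · exact absurd (Bnd_key_inj h5) hva
          rw [if_neg (fun h => absurd h.2.2.2 (by omega)), if_pos ⟨hadj.symm, h2, h1, h4⟩]
          norm_num
      · rw [if_neg hadj, if_neg (fun h => hadj h.1), if_neg (fun h => hadj h.1.symm)]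
        norm_num

theorem Bnd_T_symm (u v : V) : (T u v).IsSymm := by
  unfold T Matrix.IsSymm
  rw [Matrix.transpose_add, Matrix.transpose_single, Matrix.transpose_single, add_comm]

theorem Bnd_Av_symm (L : List (V × V)) (N : Matrix V V ℝ) (hN : N.IsSymm) (H : Finset V)
    (a b : V) : Av (fun M => (K H M).adjugate a b) L N =
      Av (fun M => (K H M).adjugate b a) L N := by
  induction L generalizing N with
  | nil => exact adj_symm N hN H a b
  | cons p L ih =>
    unfold Av
    rw [ih _ (hN.sub (Bnd_T_symm _ _)), ih _ (hN.add (Bnd_T_symm _ _))]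

/-- Positivity of the expected determinant. -/
theorem pos (G : SimpleGraph V) [DecidableRel G.Adj] (d k : ℕ) (hd : 3 ≤ d) (hk : 3 ≤ k)
    (hreg : G.IsRegularOfDegree d) (σ : Equiv.Perm V) (hc : Cyc G k σ) (ε : V → ℝ)
    (hε : ∀ v, ε v = 1 ∨ ε v = -1) (x : ℝ)
    (hx : 2 * Real.sqrt ((d : ℝ) - 1) ≤ x)
    (hx' : (∀ v, σ v ≠ v → ∏ j ∈ Finset.range k, ε ((σ ^ j) v) = -1) ∨
      2 * Real.sqrt ((d : ℝ) - 1) + 2 * ((d : ℝ) - 1) ^ (-((k : ℝ) - 1) / 2) ≤ x) :
    0 < Av (fun M => M.det) (EL G σ) (-(FM σ ε) + x • 1) := by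
  set N : Matrix V V ℝ := -(FM σ ε) + x • 1 with hN
  have hsymm : N.IsSymm := by
    apply Matrix.IsSymm.ext
    intro i j
    rw [hN, Matrix.add_apply, Matrix.add_apply, Matrix.neg_apply, Matrix.neg_apply,
      Matrix.smul_apply, Matrix.smul_apply, Bnd_FM_symm hk hc ε j i]
    by_cases h : i = j
    · subst h
      rfl
    · rw [Matrix.one_apply_ne h, Matrix.one_apply_ne (fun h' => h h'.symm)]
  have hL : ∀ p ∈ EL G σ, p.1 ≠ p.2 := by
    intro p hp
    exact (Bnd_mem_EL G σ p.1 p.2).mp hp |>.1.ne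
  have hNd : ∀ v, N v v = x := by
    intro v
    rw [hN, Matrix.add_apply, Matrix.neg_apply, Matrix.smul_apply, Matrix.one_apply_eq]
    unfold FM
    rw [if_pos rfl]
    simp
  have hNo : ∀ v a, a ≠ v → N v a = -FM σ ε v a := by
    intro v a h
    rw [hN, Matrix.add_apply, Matrix.neg_apply, Matrix.smul_apply,
      Matrix.one_apply_ne (fun h' => h h'.symm)]
    simp
  have hd1 : (0 : ℝ) < (d : ℝ) - 1 := by
    have : (3 : ℝ) ≤ d := by exact_mod_cast hd
    linarith
  have hpow : (1 / Real.sqrt ((d : ℝ) - 1)) ^ (k - 1) =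
      ((d : ℝ) - 1) ^ (-((k : ℝ) - 1) / 2) := by
    rw [one_div, Real.sqrt_eq_rpow, ← Real.rpow_neg hd1.le, ← Real.rpow_natCast,
      ← Real.rpow_mul hd1.le, Nat.cast_sub (by omega), Nat.cast_one]
    congr 1
    ring
  have hx'' : (∀ v, σ v ≠ v → ∏ j ∈ Finset.range k, ε ((σ ^ j) v) = -1) ∨
      2 * Real.sqrt ((d : ℝ) - 1) + 2 * (1 / Real.sqrt ((d : ℝ) - 1)) ^ (k - 1) ≤ x := by
    rw [hpow]
    exact hx'
  have h := core G d k hd hk hreg σ hc ε hε x hx hx''
    (fun H => Av (fun M => (K H M).det) (EL G σ) N)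
    (fun H a b => Av (fun M => (K H M).adjugate a b) (EL G σ) N)
    (by
      have : (fun M : Matrix V V ℝ => (K ∅ M).det) = fun _ => (1 : ℝ) := by
        funext M
        rw [Bnd_K_empty, Matrix.det_one]
      show Av (fun M => (K ∅ M).det) (EL G σ) N = 1
      rw [this, Bnd_Av_const])
    (by
      intro H v hv
      show Av (fun M => (K H M).det) (EL G σ) N = _
      rw [rec_det (EL G σ) hL N hsymm H v hv, hNd]
      congr 1
      · congr 1
        apply Finset.sum_congr rfl
        intro a ha
        have hav := Finset.ne_of_mem_erase ha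
        rw [hNo v a hav, neg_sq, Bnd_count G hk σ hc ε hε v a hav]
      · apply Finset.sum_congr rfl
        intro a ha
        apply Finset.sum_congr rfl
        intro b hb
        rw [hNo v a (Finset.ne_of_mem_erase ha),
          hNo v b (Finset.ne_of_mem_erase (Finset.mem_of_mem_erase hb))]
        ring)
    (by
      intro H a b ha hb hab
      show Av (fun M => (K H M).adjugate a b) (EL G σ) N = _
      rw [rec_adj (EL G σ) hL N hsymm H a b ha hb hab, ← Finset.sum_neg_distrib]
      apply Finset.sum_congr rfl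
      intro c hc'
      rw [hNo a c (Finset.ne_of_mem_erase hc')]
      ring)
    (by
      intro H b hb
      show Av (fun M => (K H M).adjugate b b) (EL G σ) N =
        Av (fun M => (K (H.erase b) M).det) (EL G σ) N
      have : (fun M : Matrix V V ℝ => (K H M).adjugate b b) =
          fun M => (K (H.erase b) M).det := by
        funext M
        exact adj_diag M H b hb
      rw [this])
    (by
      intro H a b
      exact Bnd_Av_symm (EL G σ) N hsymm H a b)
    Finset.univ
  have h1 := h.1
  have h2 : (fun M : Matrix V V ℝ => (K Finset.univ M).det) = fun M => M.det := by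
    funext M
    rw [K_univ]
  have h3 : 0 < Av (fun M => (K Finset.univ M).det) (EL G σ) N := h1
  rw [h2] at h3
  exact h3

end Pool.Agent.helper17.NR
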