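import Mathlib
import Pool.Agent.helper17.NR.Defs

set_option autoImplicit false

open scoped ComplexOrder

namespace Pool.Agent.helper17.NR

variable {V : Type*} [Fintype V] [DecidableEq V]

namespace Sel

/-- The complex version of `T`. -/
noncomputable def Tc (u v : V) : Matrix V V ℂ := Matrix.single u v 1 + Matrix.single v u 1

/-- The diagonal part of the rank one matrices. -/
noncomputable def Dc (u v : V) : Matrix V V ℂ := Matrix.single u u 1 + Matrix.single v v 1

/-- The complex version of `Av det`. -/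
noncomputable def Fc : List (V × V) → Matrix V V ℂ → ℂ
  | [], Z => Z.det
  | p :: L, Z => (Fc L (Z - Tc p.1 p.2) + Fc L (Z + Tc p.1 p.2)) / 2

/-- The rank one matrix of a vector. -/
noncomputable def Rc (w : V → ℂ) : Matrix V V ℂ := Matrix.vecMulVec w (star w)

theorem det_affine_aux (M : Matrix V V ℂ) (a b : V → ℂ) :
    ∃ c : ℂ, ∀ t : ℂ, (M + t • Matrix.vecMulVec a b).det = M.det + t * c := by
  let r : Unit ⊕ V → ℂ := Sum.elim (fun _ => 0) (fun j => - b j)
  let A : Matrix (Unit ⊕ V) (Unit ⊕ V) ℂ :=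
    Matrix.fromBlocks 1 0 (Matrix.of fun i (_ : Unit) => a i) M
  refine ⟨(A.updateRow (Sum.inl ()) r).det, fun t => ?_⟩
  have h1 : (M + t • Matrix.vecMulVec a b) = M - (Matrix.of fun i (_ : Unit) => a i) *
      (Matrix.of fun (_ : Unit) j => - (t * b j)) := by
    ext i j
    simp [Matrix.mul_apply, Matrix.vecMulVec_apply]
    ring
  rw [h1, ← Matrix.det_fromBlocks_one₁₁]
  have h2 : Matrix.fromBlocks 1 (Matrix.of fun (_ : Unit) j => - (t * b j))
      (Matrix.of fun i (_ : Unit) => a i) M =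
      A.updateRow (Sum.inl ()) (A (Sum.inl ()) + t • r) := by
    ext i j
    rcases i with i | i <;> rcases j with j | j <;> simp [A, r, Matrix.updateRow_apply]
  rw [h2, Matrix.det_updateRow_add, Matrix.det_updateRow_smul, Matrix.updateRow_eq_self]
  have h3 : A.det = M.det := by simp [A]
  rw [h3]

theorem det_affine (M : Matrix V V ℂ) (a b : V → ℂ) (t : ℂ) :
    (M + t • Matrix.vecMulVec a b).det =
      M.det + t * ((M + Matrix.vecMulVec a b).det - M.det) := by
  obtain ⟨c, hc⟩ := det_affine_aux M a b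
  have h1 := hc 1
  rw [one_smul] at h1
  rw [hc t, h1]
  ring

theorem Fc_affine (L : List (V × V)) (w : V → ℂ) (t : ℂ) : ∀ Z : Matrix V V ℂ,
    Fc L (Z + t • Rc w) = Fc L Z + t * (Fc L (Z + Rc w) - Fc L Z) := by
  induction L with
  | nil => intro Z; exact det_affine Z _ _ t
  | cons p L ih =>
    intro Z
    simp only [Fc]
    have e1 : Z + t • Rc w - Tc p.1 p.2 = (Z - Tc p.1 p.2) + t • Rc w := by abel
    have e2 : Z + t • Rc w + Tc p.1 p.2 = (Z + Tc p.1 p.2) + t • Rc w := by abel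
    have e3 : Z + Rc w - Tc p.1 p.2 = (Z - Tc p.1 p.2) + Rc w := by abel
    have e4 : Z + Rc w + Tc p.1 p.2 = (Z + Tc p.1 p.2) + Rc w := by abel
    rw [e1, e2, e3, e4, ih, ih]
    ring

theorem Tc_eq_add {u v : V} (h : u ≠ v) :
    Tc u v = Rc (Pi.single u 1 + Pi.single v 1) - Dc u v := by
  ext i j
  have h' := h.symm
  by_cases h1 : i = u <;> by_cases h2 : i = v <;> by_cases h3 : j = u <;> by_cases h4 : j = v <;>
    simp_all [Tc, Rc, Dc, Matrix.vecMulVec_apply, Matrix.single_apply, Pi.single_apply, eq_comm]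

theorem Tc_eq_sub {u v : V} (h : u ≠ v) :
    - Tc u v = Rc (Pi.single u 1 - Pi.single v 1) - Dc u v := by
  ext i j
  have h' := h.symm
  by_cases h1 : i = u <;> by_cases h2 : i = v <;> by_cases h3 : j = u <;> by_cases h4 : j = v <;>
    simp_all [Tc, Rc, Dc, Matrix.vecMulVec_apply, Matrix.single_apply, Pi.single_apply, eq_comm]

theorem Dc_herm (u v : V) : (Dc u v).IsHermitian := by
  ext i j
  simp [Dc, Matrix.single_apply, and_comm]

theorem Rc_psd (w : V → ℂ) : (Rc w).PosSemidef := Matrix.posSemidef_vecMulVec_self_star w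

theorem Fc_cons {p : V × V} (hp : p.1 ≠ p.2) (L : List (V × V)) (Z : Matrix V V ℂ) :
    Fc (p :: L) Z = (Fc L ((Z + Dc p.1 p.2) - Rc (Pi.single p.1 1 + Pi.single p.2 1)) +
      Fc L ((Z + Dc p.1 p.2) - Rc (Pi.single p.1 1 - Pi.single p.2 1))) / 2 := by
  have e1 : Z - Tc p.1 p.2 = (Z + Dc p.1 p.2) - Rc (Pi.single p.1 1 + Pi.single p.2 1) := by
    rw [Tc_eq_add hp]; abel
  have e2 : Z + Tc p.1 p.2 = (Z + Dc p.1 p.2) - Rc (Pi.single p.1 1 - Pi.single p.2 1) := by
    have := Tc_eq_sub hp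
    rw [neg_eq_iff_eq_neg] at this
    rw [this]; abel
  simp only [Fc]
  rw [e1, e2]

theorem det_ne_zero_aux (X Y : Matrix V V ℂ) (hX : X.IsHermitian) (hY : Y.PosDef) :
    (X + Complex.I • Y).det ≠ 0 := by
  intro h0
  obtain ⟨v, hv, hv0⟩ := Matrix.exists_mulVec_eq_zero_iff.2 h0
  have h1 : star v ⬝ᵥ (Matrix.mulVec (X + Complex.I • Y) v) = 0 := by rw [hv0]; simp
  rw [Matrix.add_mulVec, Matrix.smul_mulVec, dotProduct_add, dotProduct_smul] at h1
  have h2 := hX.im_star_dotProduct_mulVec_self v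
  have h3 := hY.dotProduct_mulVec_pos hv
  have h4 := congrArg Complex.im h1
  rw [Complex.lt_def] at h3
  simp at h2 h3 h4
  rw [h2] at h4
  linarith [h3.1]

/-- The property proved by induction. -/
def Good (L : List (V × V)) : Prop :=
  ∀ X Y : Matrix V V ℂ, X.IsHermitian → Y.PosDef → Fc L (X + Complex.I • Y) ≠ 0

theorem rho_aux {L : List (V × V)} (H : Good L) (X Y : Matrix V V ℂ) (hX : X.IsHermitian)
    (hY : Y.PosDef) (w : V → ℂ) (ρ : ℂ)
    (hρ : ρ * Fc L (X + Complex.I • Y) =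
      Fc L (X + Complex.I • Y + Rc w) - Fc L (X + Complex.I • Y)) :
    ρ = 0 ∨ ρ.im < 0 := by
  by_cases h0 : ρ = 0
  · exact Or.inl h0
  right
  by_contra hneg
  push Not at hneg
  have ht : 0 ≤ (-ρ⁻¹).im := by
    rw [Complex.neg_im, Complex.inv_im]
    have : 0 < Complex.normSq ρ := Complex.normSq_pos.2 h0
    have h5 : -(-ρ.im / Complex.normSq ρ) = ρ.im / Complex.normSq ρ := by ring
    rw [h5]
    positivity
  set t : ℂ := -ρ⁻¹ with htdef
  have h1 := Fc_affine L w t (X + Complex.I • Y)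
  rw [← hρ] at h1
  have h2 : X + Complex.I • Y + t • Rc w =
      (X + ((t.re : ℝ) : ℂ) • Rc w) + Complex.I • (Y + ((t.im : ℝ) : ℂ) • Rc w) := by
    conv_lhs => rw [← Complex.re_add_im t]
    rw [add_smul, smul_add, smul_smul, mul_comm Complex.I]
    abel
  rw [h2] at h1
  have h3 : (X + ((t.re : ℝ) : ℂ) • Rc w).IsHermitian := by
    refine hX.add ?_
    have := (Rc_psd w).isHermitian
    ext i j
    have h6 := this.apply i j
    simp only [Matrix.conjTranspose_apply, Matrix.smul_apply, smul_eq_mul, star_mul'] at h6 ⊢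
    rw [h6]
    simp
  have h4 : (Y + ((t.im : ℝ) : ℂ) • Rc w).PosDef := by
    refine hY.add_posSemidef ((Rc_psd w).smul ?_)
    exact_mod_cast ht
  apply H _ _ h3 h4
  rw [h1, htdef]
  field_simp
  ring

theorem good (L : List (V × V)) (hL : ∀ p ∈ L, p.1 ≠ p.2) : Good L := by
  induction L with
  | nil => intro X Y hX hY; exact det_ne_zero_aux X Y hX hY
  | cons p L ih =>
    have H : Good L := ih fun p hp => hL p (List.mem_cons_of_mem _ hp)
    intro X Y hX hY h0
    rw [Fc_cons (hL p List.mem_cons_self)] at h0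
    have e0 : X + Complex.I • Y + Dc p.1 p.2 = (X + Dc p.1 p.2) + Complex.I • Y := by abel
    rw [e0] at h0
    have hX' : (X + Dc p.1 p.2).IsHermitian := hX.add (Dc_herm _ _)
    have hne := H _ _ hX' hY
    have key : ∀ w : V → ℂ, ∃ ρ : ℂ, (ρ = 0 ∨ ρ.im < 0) ∧
        Fc L ((X + Dc p.1 p.2) + Complex.I • Y - Rc w) =
          (1 - ρ) * Fc L ((X + Dc p.1 p.2) + Complex.I • Y) := by
      intro w
      refine ⟨(Fc L ((X + Dc p.1 p.2) + Complex.I • Y + Rc w) -
        Fc L ((X + Dc p.1 p.2) + Complex.I • Y)) / Fc L ((X + Dc p.1 p.2) + Complex.I • Y),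
        rho_aux H _ _ hX' hY w _ (by field_simp), ?_⟩
      have h1 := Fc_affine L w (-1) ((X + Dc p.1 p.2) + Complex.I • Y)
      rw [neg_one_smul, ← sub_eq_add_neg] at h1
      rw [h1]
      field_simp
      ring
    obtain ⟨ρ, hρ, e1⟩ := key (Pi.single p.1 1 + Pi.single p.2 1)
    obtain ⟨τ, hτ, e2⟩ := key (Pi.single p.1 1 - Pi.single p.2 1)
    rw [e1, e2] at h0
    have h2 : (2 - (ρ + τ)) * Fc L ((X + Dc p.1 p.2) + Complex.I • Y) = 0 := by
      linear_combination 2 * h0
    have h3 : ρ + τ = 2 := by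
      rcases mul_eq_zero.1 h2 with h | h
      · linear_combination -h
      · exact absurd h hne
    have h4 : ρ.im + τ.im = 0 := by
      have := congrArg Complex.im h3
      simpa using this
    have h5 : ρ.im ≤ 0 := by
      rcases hρ with h | h
      · simp [h]
      · exact h.le
    have h6 : τ.im ≤ 0 := by
      rcases hτ with h | h
      · simp [h]
      · exact h.le
    rcases hρ with h | h
    · rcases hτ with h' | h'
      · rw [h, h'] at h3
        norm_num at h3
      · linarith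
    · linarith

/-- The real rank one matrix. -/
noncomputable def Rr (w : V → ℝ) : Matrix V V ℝ := Matrix.vecMulVec w w

/-- The real average of determinants. -/
noncomputable def Ar (L : List (V × V)) (N : Matrix V V ℝ) : ℝ := Av (fun M => M.det) L N

theorem Ar_nil (N : Matrix V V ℝ) : Ar [] N = N.det := rfl

theorem Ar_cons (p : V × V) (L : List (V × V)) (N : Matrix V V ℝ) :
    Ar (p :: L) N = (Ar L (N - T p.1 p.2) + Ar L (N + T p.1 p.2)) / 2 := rfl

/-- Real matrices as complex matrices. -/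
noncomputable def cx (N : Matrix V V ℝ) : Matrix V V ℂ := N.map (fun x : ℝ => (x : ℂ))

theorem cx_apply (N : Matrix V V ℝ) (i j : V) : cx N i j = (N i j : ℂ) := rfl

theorem Fc_cx (L : List (V × V)) : ∀ N : Matrix V V ℝ, Fc L (cx N) = ((Ar L N : ℝ) : ℂ) := by
  induction L with
  | nil =>
    intro N
    exact (RingHom.map_det Complex.ofRealHom N).symm
  | cons p L ih =>
    intro N
    have e1 : cx N - Tc p.1 p.2 = cx (N - T p.1 p.2) := by
      ext i j
      simp only [cx_apply, Tc, T, Matrix.single_apply, Matrix.sub_apply, Matrix.add_apply]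
      push_cast
      split_ifs <;> simp
    have e2 : cx N + Tc p.1 p.2 = cx (N + T p.1 p.2) := by
      ext i j
      simp only [cx_apply, Tc, T, Matrix.single_apply, Matrix.sub_apply, Matrix.add_apply]
      push_cast
      split_ifs <;> simp
    rw [Ar_cons]
    simp only [Fc]
    rw [e1, e2, ih, ih]
    push_cast
    ring

theorem cx_add_smul (N : Matrix V V ℝ) (x : ℝ) : cx (N + x • 1) = cx N + (x : ℂ) • 1 := by
  ext i j
  simp only [cx_apply, Matrix.one_apply, Matrix.add_apply, Matrix.smul_apply, smul_eq_mul]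
  push_cast
  split_ifs <;> simp

theorem cx_add_Rr (N : Matrix V V ℝ) (w : V → ℝ) :
    cx (N + Rr w) = cx N + Rc (fun i => (w i : ℂ)) := by
  ext i j
  simp [cx_apply, Rr, Rc, Matrix.vecMulVec_apply]

theorem cx_add_smul_Rr (N : Matrix V V ℝ) (w : V → ℝ) (t : ℝ) :
    cx (N + t • Rr w) = cx N + (t : ℂ) • Rc (fun i => (w i : ℂ)) := by
  ext i j
  simp [cx_apply, Rr, Rc, Matrix.vecMulVec_apply]

theorem Ar_affine (L : List (V × V)) (w : V → ℝ) (t : ℝ) (N : Matrix V V ℝ) :
    Ar L (N + t • Rr w) = Ar L N + t * (Ar L (N + Rr w) - Ar L N) := by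
  have h := Fc_affine L (fun i => (w i : ℂ)) t (cx N)
  rw [← cx_add_smul_Rr, ← cx_add_Rr, Fc_cx, Fc_cx, Fc_cx] at h
  exact_mod_cast h

theorem Rr_psd (w : V → ℝ) : (Rr w).PosSemidef := by
  have := Matrix.posSemidef_vecMulVec_self_star (n := V) (R := ℝ) w
  simpa [Rr] using this

theorem cx_herm {N : Matrix V V ℝ} (hN : N.IsSymm) : (cx N).IsHermitian := by
  ext i j
  simp [cx_apply, hN.apply i j]

theorem diff_Fc (L : List (V × V)) : ∀ Z : Matrix V V ℂ,
    Differentiable ℂ (fun z : ℂ => Fc L (Z + z • (1 : Matrix V V ℂ))) := by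
  induction L with
  | nil =>
    intro Z
    simp only [Fc, Matrix.det_apply, Matrix.add_apply, Matrix.smul_apply]
    fun_prop
  | cons p L ih =>
    intro Z
    simp only [Fc]
    have e1 : ∀ z : ℂ, Z + z • (1 : Matrix V V ℂ) - Tc p.1 p.2 = (Z - Tc p.1 p.2) + z • 1 := by
      intro z; abel
    have e2 : ∀ z : ℂ, Z + z • (1 : Matrix V V ℂ) + Tc p.1 p.2 = (Z + Tc p.1 p.2) + z • 1 := by
      intro z; abel
    simp only [e1, e2]
    exact ((ih _).add (ih _)).div_const 2

theorem cont_Ar (L : List (V × V)) : ∀ N : Matrix V V ℝ,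
    Continuous (fun x : ℝ => Ar L (N + x • (1 : Matrix V V ℝ))) := by
  intro N
  have h := (diff_Fc L (cx N)).continuous
  have h2 : Continuous (fun x : ℝ => (Fc L (cx N + (x : ℂ) • (1 : Matrix V V ℂ))).re) :=
    Complex.continuous_re.comp (h.comp Complex.continuous_ofReal)
  refine h2.congr fun x => ?_
  rw [← cx_add_smul, Fc_cx, Complex.ofReal_re]

theorem slope_aux (φ : ℂ → ℂ) (φ' : ℂ) (x : ℝ) (h : HasDerivAt φ φ' (x : ℂ))
    (h0 : (φ x).im = 0) (hneg : ∀ y : ℝ, 0 < y → (φ (x + y * Complex.I)).im ≤ 0) :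
    φ'.re ≤ 0 := by
  have hz : HasDerivAt (fun z : ℂ => (x : ℂ) + z * Complex.I) Complex.I 0 := by
    simpa using ((hasDerivAt_id (0 : ℂ)).mul_const Complex.I).const_add (x : ℂ)
  have hc : HasDerivAt (fun z : ℂ => φ (x + z * Complex.I)) (φ' * Complex.I) 0 := by
    have h' : HasDerivAt φ φ' ((x : ℂ) + 0 * Complex.I) := by simpa using h
    exact h'.comp 0 hz
  have hk0 : HasDerivAt (fun z : ℂ => (-Complex.I) * φ (x + z * Complex.I))
      ((-Complex.I) * (φ' * Complex.I)) ((0 : ℝ) : ℂ) := by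
    simpa using hc.const_mul (-Complex.I)
  have hk := hk0.real_of_complex
  have e1 : ((-Complex.I) * (φ' * Complex.I)).re = φ'.re := by simp
  have e2 : (fun y : ℝ => ((-Complex.I) * φ (x + (y : ℂ) * Complex.I)).re) =
      fun y : ℝ => (φ (x + (y : ℂ) * Complex.I)).im := by
    funext y; simp
  rw [e1, e2] at hk
  rw [hasDerivAt_iff_tendsto_slope_zero] at hk
  have hk2 := hk.mono_left (nhdsWithin_mono (0 : ℝ)
    (fun t (ht : t ∈ Set.Ioi (0 : ℝ)) => (ne_of_gt ht : t ∈ ({0}ᶜ : Set ℝ))))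
  refine le_of_tendsto hk2 ?_
  filter_upwards [self_mem_nhdsWithin] with t ht
  have ht' : (0 : ℝ) < t := ht
  have h3 := hneg t ht'
  simp only [zero_add, Complex.ofReal_zero, zero_mul, add_zero, h0, sub_zero, smul_eq_mul]
  have : 0 < t⁻¹ := inv_pos.2 ht'
  nlinarith

theorem anti (L : List (V × V)) (hL : ∀ p ∈ L, p.1 ≠ p.2) (N : Matrix V V ℝ) (hN : N.IsSymm)
    (w : V → ℝ) (D : Set ℝ) (hD : Convex ℝ D)
    (hpos : ∀ x ∈ D, 0 < Ar L (N + x • (1 : Matrix V V ℝ))) :
    AntitoneOn (fun x : ℝ => (Ar L (N + x • (1 : Matrix V V ℝ) + Rr w) -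
      Ar L (N + x • (1 : Matrix V V ℝ))) / Ar L (N + x • (1 : Matrix V V ℝ))) D := by
  set wc : V → ℂ := fun i => (w i : ℂ) with hwc
  let g : ℂ → ℂ := fun z => Fc L (cx N + z • (1 : Matrix V V ℂ))
  let h : ℂ → ℂ := fun z => Fc L (cx N + Rc wc + z • (1 : Matrix V V ℂ)) - g z
  have hg : Differentiable ℂ g := diff_Fc L _
  have hh : Differentiable ℂ h := (diff_Fc L _).sub hg
  let φ : ℂ → ℂ := fun z => h z / g z
  have eg : ∀ x : ℝ, g x = ((Ar L (N + x • (1 : Matrix V V ℝ)) : ℝ) : ℂ) := by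
    intro x
    simp only [g]
    rw [← cx_add_smul, Fc_cx]
  have eh : ∀ x : ℝ, h x = ((Ar L (N + x • (1 : Matrix V V ℝ) + Rr w) -
      Ar L (N + x • (1 : Matrix V V ℝ)) : ℝ) : ℂ) := by
    intro x
    simp only [h]
    rw [eg]
    have : cx N + Rc wc + (x : ℂ) • (1 : Matrix V V ℂ) =
        cx (N + x • (1 : Matrix V V ℝ) + Rr w) := by
      rw [cx_add_Rr, cx_add_smul]; abel
    rw [this, Fc_cx]
    push_cast
    rfl
  have eφ : (fun x : ℝ => (φ x).re) = fun x : ℝ => (Ar L (N + x • (1 : Matrix V V ℝ) + Rr w) -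
      Ar L (N + x • (1 : Matrix V V ℝ))) / Ar L (N + x • (1 : Matrix V V ℝ)) := by
    funext x
    simp only [φ]
    rw [eg, eh, ← Complex.ofReal_div, Complex.ofReal_re]
  have eφi : ∀ x : ℝ, (φ x).im = 0 := by
    intro x
    simp only [φ]
    rw [eg, eh, ← Complex.ofReal_div, Complex.ofReal_im]
  have hder : ∀ x ∈ D, HasDerivAt φ (deriv φ x) (x : ℂ) := by
    intro x hx
    have hne : g x ≠ 0 := by
      rw [eg]
      exact_mod_cast (hpos x hx).ne'
    exact ((hh x).div (hg x) hne).hasDerivAt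
  have hG := good L hL
  have hle : ∀ x ∈ D, (deriv φ x).re ≤ 0 := by
    intro x hx
    refine slope_aux φ _ x (hder x hx) (eφi x) fun y hy => ?_
    have hX : (cx N + (x : ℂ) • (1 : Matrix V V ℂ)).IsHermitian := by
      rw [← cx_add_smul]
      refine cx_herm ?_
      exact hN.add (by simp [Matrix.IsSymm])
    have hY : ((y : ℂ) • (1 : Matrix V V ℂ)).PosDef :=
      Matrix.PosDef.one.smul (by exact_mod_cast hy)
    have e3 : cx N + ((x : ℂ) + y * Complex.I) • (1 : Matrix V V ℂ) =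
        (cx N + (x : ℂ) • (1 : Matrix V V ℂ)) + Complex.I • ((y : ℂ) • (1 : Matrix V V ℂ)) := by
      rw [add_smul, smul_smul, mul_comm Complex.I]
      abel
    have e4 : cx N + Rc wc + ((x : ℂ) + y * Complex.I) • (1 : Matrix V V ℂ) =
        (cx N + (x : ℂ) • (1 : Matrix V V ℂ)) + Complex.I • ((y : ℂ) • (1 : Matrix V V ℂ)) +
          Rc wc := by
      rw [← e3]; abel
    have hne := hG _ _ hX hY
    have h5 := rho_aux hG _ _ hX hY wc (φ (x + y * Complex.I)) (by
      simp only [φ, h, g]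
      rw [e3, e4]
      field_simp)
    rcases h5 with h5 | h5
    · rw [h5]; simp
    · exact h5.le
  rw [← eφ]
  have hder' : ∀ x ∈ D, HasDerivAt (fun x : ℝ => (φ x).re) (deriv φ x).re x := fun x hx =>
    (hder x hx).real_of_complex
  refine antitoneOn_of_deriv_nonpos hD (fun x hx => (hder' x hx).continuousAt.continuousWithinAt)
    (fun x hx => (hder' x (interior_subset hx)).differentiableAt.differentiableWithinAt)
    fun x hx => ?_
  rw [(hder' x (interior_subset hx)).deriv]
  exact hle x (interior_subset hx)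

theorem posDef_large (N : Matrix V V ℝ) (hN : N.IsSymm) :
    ∃ x1 : ℝ, ∀ x, x1 ≤ x → (N + x • (1 : Matrix V V ℝ)).PosDef := by
  refine ⟨(∑ i, ∑ j, |N i j|) + 1, fun x hx => ?_⟩
  refine Matrix.PosDef.of_dotProduct_mulVec_pos ?_ fun v hv => ?_
  · rw [Matrix.isHermitian_iff_isSymm]
    exact hN.add (by simp [Matrix.IsSymm])
  · have hS : 0 < ∑ k, v k ^ 2 := by
      obtain ⟨k, hk⟩ := Function.ne_iff.1 hv
      exact Finset.sum_pos' (fun i _ => sq_nonneg _) ⟨k, Finset.mem_univ _, by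
        have : v k ≠ 0 := hk
        positivity⟩
    have e1 : star v ⬝ᵥ (Matrix.mulVec (N + x • (1 : Matrix V V ℝ)) v) =
        (∑ i, ∑ j, v i * N i j * v j) + x * ∑ k, v k ^ 2 := by
      rw [Matrix.add_mulVec, Matrix.smul_mulVec, Matrix.one_mulVec, dotProduct_add,
        dotProduct_smul]
      simp only [dotProduct, Matrix.mulVec, star_trivial, smul_eq_mul, Finset.mul_sum]
      congr 1
      · exact Finset.sum_congr rfl fun i _ => Finset.sum_congr rfl fun j _ => by ring
      · exact Finset.sum_congr rfl fun i _ => by ring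
    rw [e1]
    have hb : ∀ i j, -(|N i j| * ∑ k, v k ^ 2) ≤ v i * N i j * v j := by
      intro i j
      have h1 : |v i * v j| ≤ ∑ k, v k ^ 2 := by
        have h2 : v i ^ 2 ≤ ∑ k, v k ^ 2 :=
          Finset.single_le_sum (f := fun k => v k ^ 2) (fun k _ => sq_nonneg _)
            (Finset.mem_univ i)
        have h3 : v j ^ 2 ≤ ∑ k, v k ^ 2 :=
          Finset.single_le_sum (f := fun k => v k ^ 2) (fun k _ => sq_nonneg _)
            (Finset.mem_univ j)
        rw [abs_mul]
        nlinarith [sq_nonneg (|v i| - |v j|), sq_abs (v i), sq_abs (v j)]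
      have h4 : |v i * N i j * v j| ≤ |N i j| * ∑ k, v k ^ 2 := by
        have : v i * N i j * v j = N i j * (v i * v j) := by ring
        rw [this, abs_mul]
        exact mul_le_mul_of_nonneg_left h1 (abs_nonneg _)
      exact (abs_le.1 h4).1
    have hsum : -((∑ i, ∑ j, |N i j|) * ∑ k, v k ^ 2) ≤ ∑ i, ∑ j, v i * N i j * v j := by
      rw [Finset.sum_mul, ← Finset.sum_neg_distrib]
      refine Finset.sum_le_sum fun i _ => ?_
      rw [Finset.sum_mul, ← Finset.sum_neg_distrib]
      exact Finset.sum_le_sum fun j _ => hb i j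
    nlinarith

theorem T_symm (u v : V) : (T u v).IsSymm := by
  ext i j
  simp [T, Matrix.single_apply, and_comm, add_comm]

theorem pos_large (L : List (V × V)) : ∀ N : Matrix V V ℝ, N.IsSymm →
    ∃ x1 : ℝ, ∀ x, x1 ≤ x → ∀ Q : Matrix V V ℝ, Q.PosSemidef →
      0 < Ar L (N + x • (1 : Matrix V V ℝ) + Q) := by
  induction L with
  | nil =>
    intro N hN
    obtain ⟨x1, h1⟩ := posDef_large N hN
    exact ⟨x1, fun x hx Q hQ => ((h1 x hx).add_posSemidef hQ).det_pos⟩
  | cons p L ih =>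
    intro N hN
    obtain ⟨x1, h1⟩ := ih (N - T p.1 p.2) (hN.sub (T_symm _ _))
    obtain ⟨x2, h2⟩ := ih (N + T p.1 p.2) (hN.add (T_symm _ _))
    refine ⟨max x1 x2, fun x hx Q hQ => ?_⟩
    have e1 : N + x • (1 : Matrix V V ℝ) + Q - T p.1 p.2 =
        (N - T p.1 p.2) + x • (1 : Matrix V V ℝ) + Q := by abel
    have e2 : N + x • (1 : Matrix V V ℝ) + Q + T p.1 p.2 =
        (N + T p.1 p.2) + x • (1 : Matrix V V ℝ) + Q := by abel
    rw [Ar_cons, e1, e2]
    have := h1 x ((le_max_left _ _).trans hx) Q hQ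
    have := h2 x ((le_max_right _ _).trans hx) Q hQ
    linarith

theorem h_nonneg (L : List (V × V)) (N : Matrix V V ℝ) (x : ℝ)
    (hx : ∀ Q : Matrix V V ℝ, Q.PosSemidef → 0 < Ar L (N + x • (1 : Matrix V V ℝ) + Q))
    (w : V → ℝ) :
    0 ≤ Ar L (N + x • (1 : Matrix V V ℝ) + Rr w) - Ar L (N + x • (1 : Matrix V V ℝ)) := by
  by_contra hneg
  push Not at hneg
  have hg : 0 < Ar L (N + x • (1 : Matrix V V ℝ)) := by
    simpa using hx 0 Matrix.PosSemidef.zero
  set G := Ar L (N + x • (1 : Matrix V V ℝ)) with hG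
  set H := Ar L (N + x • (1 : Matrix V V ℝ) + Rr w) - G with hH
  have ht : 0 ≤ -G / H := by
    have := div_nonneg_of_nonpos (by linarith : -G ≤ 0) hneg.le
    exact this
  have h1 := hx ((-G / H) • Rr w) ((Rr_psd w).smul ht)
  rw [Ar_affine, ← hG, ← hH, div_mul_cancel₀ _ hneg.ne] at h1
  linarith

/-- The real diagonal part. -/
noncomputable def Dr (u v : V) : Matrix V V ℝ := Matrix.single u u 1 + Matrix.single v v 1

theorem T_eq_add {u v : V} (h : u ≠ v) :
    T u v = Rr (Pi.single u 1 + Pi.single v 1) - Dr u v := by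
  ext i j
  have h' := h.symm
  by_cases h1 : i = u <;> by_cases h2 : i = v <;> by_cases h3 : j = u <;> by_cases h4 : j = v <;>
    simp_all [T, Rr, Dr, Matrix.vecMulVec_apply, Matrix.single_apply, Pi.single_apply, eq_comm]

theorem T_eq_sub {u v : V} (h : u ≠ v) :
    - T u v = Rr (Pi.single u 1 - Pi.single v 1) - Dr u v := by
  ext i j
  have h' := h.symm
  by_cases h1 : i = u <;> by_cases h2 : i = v <;> by_cases h3 : j = u <;> by_cases h4 : j = v <;>
    simp_all [T, Rr, Dr, Matrix.vecMulVec_apply, Matrix.single_apply, Pi.single_apply, eq_comm]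

theorem Dr_symm (u v : V) : (Dr u v).IsSymm := by
  ext i j
  simp [Dr, Matrix.single_apply, and_comm]

/-- The induction step: one of two directions keeps everything positive. -/
theorem step (L : List (V × V)) (hL : ∀ p ∈ L, p.1 ≠ p.2) (M : Matrix V V ℝ) (hM : M.IsSymm)
    (a b : V → ℝ) (x0 : ℝ)
    (hf : ∀ x : ℝ, x0 ≤ x → 0 < Ar L (M + x • (1 : Matrix V V ℝ) - Rr a) +
      Ar L (M + x • (1 : Matrix V V ℝ) - Rr b)) :
    (∀ x : ℝ, x0 ≤ x → 0 < Ar L (M + x • (1 : Matrix V V ℝ) - Rr a)) ∨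
    (∀ x : ℝ, x0 ≤ x → 0 < Ar L (M + x • (1 : Matrix V V ℝ) - Rr b)) := by
  let G : ℝ → ℝ := fun x => Ar L (M + x • (1 : Matrix V V ℝ))
  let H : (V → ℝ) → ℝ → ℝ := fun w x => Ar L (M + x • (1 : Matrix V V ℝ) + Rr w) - G x
  have eH : ∀ w x, Ar L (M + x • (1 : Matrix V V ℝ) - Rr w) = G x - H w x := by
    intro w x
    have h1 := Ar_affine L w (-1) (M + x • (1 : Matrix V V ℝ))
    rw [neg_one_smul, ← sub_eq_add_neg] at h1
    rw [h1]
    simp only [G, H]
    ring
  have cG : Continuous G := cont_Ar L M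
  have cH : ∀ w, Continuous (H w) := by
    intro w
    refine Continuous.sub ?_ cG
    refine (cont_Ar L (M + Rr w)).congr fun x => ?_
    congr 1
    abel
  obtain ⟨x1, h1⟩ := pos_large L M hM
  have hGlarge : ∀ x, x1 ≤ x → 0 < G x := by
    intro x hx
    have := h1 x hx 0 Matrix.PosSemidef.zero
    simpa [G] using this
  have hHlarge : ∀ w x, x1 ≤ x → 0 ≤ H w x := fun w x hx => h_nonneg L M x (h1 x hx) w
  have hGpos : ∀ x, x0 ≤ x → 0 < G x := by
    by_contra hcon
    push Not at hcon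
    obtain ⟨x2, hx2, hG2⟩ := hcon
    let S : Set ℝ := {x | x0 ≤ x ∧ G x ≤ 0}
    have hSne : S.Nonempty := ⟨x2, hx2, hG2⟩
    have hSb : BddAbove S := ⟨x1, fun x hx => by
      by_contra hlt
      push Not at hlt
      exact absurd (hGlarge x hlt.le) (not_lt.2 hx.2)⟩
    have hSc : IsClosed S :=
      (isClosed_le continuous_const continuous_id).inter (isClosed_le cG continuous_const)
    have hb := hSc.csSup_mem hSne hSb
    set b0 := sSup S with hb0
    have hpos : ∀ x ∈ Set.Ioi b0, 0 < G x := by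
      intro x hx
      by_contra hle
      push Not at hle
      have : x ≤ b0 := le_csSup hSb ⟨hb.1.trans (le_of_lt hx), hle⟩
      exact absurd this (not_le.2 hx)
    have hHpos : ∀ w, 0 ≤ H w b0 := by
      intro w
      have hanti := anti L hL M hM w (Set.Ioi b0) (convex_Ioi b0) hpos
      have hH2 : ∀ x ∈ Set.Ioi b0, 0 ≤ H w x := by
        intro x hx
        have hxb : b0 < x := hx
        have hy : max x x1 ∈ Set.Ioi b0 := hxb.trans_le (le_max_left _ _)
        have h3 := hanti hx hy (le_max_left _ _)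
        have h4 : 0 ≤ H w (max x x1) / G (max x x1) :=
          div_nonneg (hHlarge w _ (le_max_right _ _)) (hpos _ hy).le
        have h5 : 0 ≤ H w x / G x := h4.trans h3
        have h6 := hpos x hx
        have h7 : H w x = H w x / G x * G x := by field_simp
        rw [h7]
        positivity
      refine ge_of_tendsto ((cH w).continuousAt.continuousWithinAt
        (s := Set.Ioi b0) (x := b0)).tendsto ?_
      filter_upwards [self_mem_nhdsWithin] with x hx using hH2 x hx
    have h8 := hf b0 hb.1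
    rw [eH, eH] at h8
    have h9 := hHpos a
    have h10 := hHpos b
    have h11 := hb.2
    linarith
  have hanti : ∀ w, AntitoneOn (fun x => H w x / G x) (Set.Ici x0) := fun w =>
    anti L hL M hM w (Set.Ici x0) (convex_Ici x0) hGpos
  have main : ∀ w, H w x0 < G x0 → ∀ x, x0 ≤ x → 0 < Ar L (M + x • (1 : Matrix V V ℝ) - Rr w) := by
    intro w hw x hx
    have h3 := hanti w (Set.self_mem_Ici) hx hx
    have h4 : H w x0 / G x0 < 1 := (div_lt_one (hGpos x0 le_rfl)).2 hw
    have h5 : H w x / G x < 1 := lt_of_le_of_lt h3 h4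
    rw [div_lt_one (hGpos x hx)] at h5
    rw [eH]
    linarith
  by_cases hA : H a x0 < G x0
  · exact Or.inl (main a hA)
  · right
    refine main b ?_
    have h8 := hf x0 le_rfl
    rw [eH, eH] at h8
    push Not at hA
    linarith

end Sel

/-- Selection of signs. -/
theorem select (L : List (V × V)) (hL : ∀ p ∈ L, p.1 ≠ p.2) (N : Matrix V V ℝ) (hN : N.IsSymm)
    (x0 : ℝ) (h : ∀ x : ℝ, x0 ≤ x → 0 < Av (fun M => M.det) L (N + x • 1)) :
    ∃ N', Reach L N N' ∧ ∀ x : ℝ, x0 ≤ x → 0 < (N' + x • 1).det := by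
  induction L generalizing N with
  | nil => exact ⟨N, rfl, h⟩
  | cons p L ih =>
    have hp : p.1 ≠ p.2 := hL p List.mem_cons_self
    have hL' : ∀ q ∈ L, q.1 ≠ q.2 := fun q hq => hL q (List.mem_cons_of_mem _ hq)
    have e1 : ∀ x : ℝ, N + Sel.Dr p.1 p.2 + x • (1 : Matrix V V ℝ) -
        Sel.Rr (Pi.single p.1 1 + Pi.single p.2 1) = (N - T p.1 p.2) + x • 1 := by
      intro x
      rw [Sel.T_eq_add hp]; abel
    have e2 : ∀ x : ℝ, N + Sel.Dr p.1 p.2 + x • (1 : Matrix V V ℝ) -
        Sel.Rr (Pi.single p.1 1 - Pi.single p.2 1) = (N + T p.1 p.2) + x • 1 := by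
      intro x
      have h2 := Sel.T_eq_sub hp
      rw [neg_eq_iff_eq_neg] at h2
      rw [h2]; abel
    have hs := Sel.step L hL' (N + Sel.Dr p.1 p.2) (hN.add (Sel.Dr_symm _ _))
      (Pi.single p.1 1 + Pi.single p.2 1) (Pi.single p.1 1 - Pi.single p.2 1) x0 (by
        intro x hx
        rw [e1, e2]
        have h3 := h x hx
        have e3 : N + x • (1 : Matrix V V ℝ) - T p.1 p.2 = (N - T p.1 p.2) + x • 1 := by abel
        have e4 : N + x • (1 : Matrix V V ℝ) + T p.1 p.2 = (N + T p.1 p.2) + x • 1 := by abel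
        change 0 < Sel.Ar (p :: L) (N + x • 1) at h3
        rw [Sel.Ar_cons, e3, e4] at h3
        linarith)
    rcases hs with hs | hs
    · obtain ⟨N', hr, hd⟩ := ih hL' (N - T p.1 p.2) (hN.sub (Sel.T_symm _ _)) (fun x hx => by
        have := hs x hx
        rwa [e1] at this)
      exact ⟨N', Or.inl hr, hd⟩
    · obtain ⟨N', hr, hd⟩ := ih hL' (N + T p.1 p.2) (hN.add (Sel.T_symm _ _)) (fun x hx => by
        have := hs x hx
        rwa [e2] at this)
      exact ⟨N', Or.inr hr, hd⟩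

end Pool.Agent.helper17.NR
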