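import Mathlib
import Pool.Agent.helper17.NR.Defs
import Pool.Agent.helper17.NR.Sel
import Pool.Agent.helper17.NR.Bnd

set_option autoImplicit false

namespace Pool.Agent.helper17.NR

variable {V : Type*} [Fintype V] [DecidableEq V]

omit [Fintype V] in
theorem Sgn_T_ne (a b u v : V) (h1 : (u, v) ≠ (a, b)) (h2 : (v, u) ≠ (a, b)) : T a b u v = 0 := by
  have h3 : ¬ (a = u ∧ b = v) := by
    rintro ⟨rfl, rfl⟩
    exact h1 rfl
  have h4 : ¬ (b = u ∧ a = v) := by
    rintro ⟨rfl, rfl⟩
    exact h2 rfl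
  simp [T, h3, h4]

omit [Fintype V] in
theorem Sgn_T_self (a b : V) (h : a ≠ b) : T a b a b = 1 := by
  simp [T, h.symm]

omit [Fintype V] in
theorem Sgn_T_swap (a b : V) (h : a ≠ b) : T a b b a = 1 := by
  simp [T, h]

omit [Fintype V] in
/-- the entries of a reachable matrix -/
theorem Sgn_reach (L : List (V × V)) (hL : L.Nodup) (hne : ∀ p ∈ L, p.1 ≠ p.2)
    (hsw : ∀ u v, (u, v) ∈ L → (v, u) ∉ L) : ∀ N N' : Matrix V V ℝ, Reach L N N' →
      (∀ u v, (u, v) ∉ L → (v, u) ∉ L → N' u v = N u v) ∧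
      ∀ u v, (u, v) ∈ L → (N' u v = N u v + 1 ∧ N' v u = N v u + 1) ∨
        (N' u v = N u v - 1 ∧ N' v u = N v u - 1) := by
  induction L with
  | nil =>
    intro N N' h
    have h1 : N' = N := h
    subst h1
    exact ⟨fun _ _ _ _ => rfl, fun u v h => absurd h (List.not_mem_nil)⟩
  | cons p L ih =>
    intro N N' h
    obtain ⟨hp, hL'⟩ := List.nodup_cons.1 hL
    have hne' : ∀ q ∈ L, q.1 ≠ q.2 := fun q hq => hne q (List.mem_cons_of_mem _ hq)
    have hsw' : ∀ u v, (u, v) ∈ L → (v, u) ∉ L := fun u v hu hv =>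
      hsw u v (List.mem_cons_of_mem _ hu) (List.mem_cons_of_mem _ hv)
    have hpp : (p.1, p.2) ∈ p :: L := List.mem_cons_self
    have hp1 : (p.1, p.2) ∉ L := hp
    have hp2 : (p.2, p.1) ∉ L := fun h1 => hsw _ _ hpp (List.mem_cons_of_mem _ h1)
    have hpne : p.1 ≠ p.2 := hne p List.mem_cons_self
    -- common part
    have key : ∀ c : ℝ, (c = 1 ∨ c = -1) → ∀ N1 : Matrix V V ℝ, (∀ u v, N1 u v = N u v + c * T p.1 p.2 u v) →
        Reach L N1 N' →
        (∀ u v, (u, v) ∉ p :: L → (v, u) ∉ p :: L → N' u v = N u v) ∧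
        ∀ u v, (u, v) ∈ p :: L → (N' u v = N u v + 1 ∧ N' v u = N v u + 1) ∨
          (N' u v = N u v - 1 ∧ N' v u = N v u - 1) := by
      intro c hc N1 hN1 hR
      obtain ⟨h1, h2⟩ := ih hL' hne' hsw' N1 N' hR
      constructor
      · intro u v hu hv
        have hu1 : (u, v) ≠ (p.1, p.2) := fun h => hu (by rw [h]; exact hpp)
        have hv1 : (v, u) ≠ (p.1, p.2) := fun h => hv (by rw [h]; exact hpp)
        rw [h1 u v (fun h => hu (List.mem_cons_of_mem _ h)) (fun h => hv (List.mem_cons_of_mem _ h)),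
          hN1, Sgn_T_ne _ _ _ _ hu1 hv1, mul_zero, add_zero]
      · intro u v hu
        rcases List.mem_cons.1 hu with hup | huL
        · have hu1 : u = p.1 := congrArg Prod.fst hup
          have hv1 : v = p.2 := congrArg Prod.snd hup
          subst hu1
          subst hv1
          have e1 := h1 p.1 p.2 hp1 hp2
          have e2 := h1 p.2 p.1 hp2 hp1
          rw [hN1, Sgn_T_self _ _ hpne, mul_one] at e1
          rw [hN1, Sgn_T_swap _ _ hpne, mul_one] at e2
          rcases hc with hc | hc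
          · left
            rw [e1, e2, hc]
            exact ⟨rfl, rfl⟩
          · right
            rw [e1, e2, hc]
            exact ⟨rfl, rfl⟩
        · have hu1 : (u, v) ≠ (p.1, p.2) := fun h => hp1 (by rw [← h]; exact huL)
          have hv1 : (v, u) ≠ (p.1, p.2) := fun h => hsw u v hu (by rw [h]; exact hpp)
          have e1 : N1 u v = N u v := by
            rw [hN1, Sgn_T_ne _ _ _ _ hu1 hv1, mul_zero, add_zero]
          have e2 : N1 v u = N v u := by
            rw [hN1, Sgn_T_ne _ _ _ _ hv1 hu1, mul_zero, add_zero]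
          have e3 := h2 u v huL
          rw [e1, e2] at e3
          exact e3
    rcases h with h | h
    · refine key (-1) (Or.inr rfl) _ ?_ h
      intro u v
      rw [Matrix.sub_apply]
      ring
    · refine key 1 (Or.inl rfl) _ ?_ h
      intro u v
      rw [Matrix.add_apply]
      ring

/-- Good signs which are prescribed on the cycles. -/
theorem signs (G : SimpleGraph V) [DecidableRel G.Adj] (d k : ℕ) (hd : 3 ≤ d) (hk : 3 ≤ k)
    (hreg : G.IsRegularOfDegree d) (σ : Equiv.Perm V) (hc : Cyc G k σ) (e : V → Bool) (x0 : ℝ)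
    (hx : 2 * Real.sqrt ((d : ℝ) - 1) ≤ x0)
    (hx' : (∀ v, σ v ≠ v → ∏ j ∈ Finset.range k, sg (e ((σ ^ j) v)) = -1) ∨
      2 * Real.sqrt ((d : ℝ) - 1) + 2 * ((d : ℝ) - 1) ^ (-((k : ℝ) - 1) / 2) ≤ x0) :
    ∃ s : V → V → Bool, (∀ u v, s u v = s v u) ∧ (∀ u, σ u ≠ u → s u (σ u) = e u) ∧
      ∀ x : ℝ, x0 ≤ x → 0 < (x • 1 - SA G s).det := by
  classical
  set ε : V → ℝ := fun v => sg (e v) with hεdef
  have hε : ∀ v, ε v = 1 ∨ ε v = -1 := by
    intro v
    rw [hεdef]
    dsimp only
    cases e v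
    · right; rfl
    · left; rfl
  -- no two-cycles
  have hno : ∀ u w, u ≠ w → σ u = w → σ w ≠ u := by
    intro u w huw h1 h2
    have h3 : σ u ≠ u := by
      rw [h1]
      exact huw.symm
    refine hc.mini u h3 2 (by norm_num) (by omega) ?_
    rw [pow_two, Equiv.Perm.mul_apply, h1, h2]
  -- the fixed part is symmetric
  have hFs : ∀ u w, FM σ ε u w = FM σ ε w u := by
    intro u w
    unfold FM
    by_cases h0 : u = w
    · rw [if_pos h0, if_pos h0.symm]
    · rw [if_neg h0, if_neg (Ne.symm h0)]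
      by_cases h1 : σ u = w
      · rw [if_pos h1, if_neg (hno u w h0 h1), if_pos h1]
      · rw [if_neg h1, if_neg h1]
  have hNs : (-(FM σ ε)).IsSymm := by
    ext u w
    rw [Matrix.transpose_apply, Matrix.neg_apply, Matrix.neg_apply, hFs]
  -- the list
  have hmem : ∀ u v, (u, v) ∈ EL G σ ↔ G.Adj u v ∧ σ u ≠ v ∧ σ v ≠ u ∧ key u < key v := by
    intro u v
    unfold EL
    rw [Finset.mem_toList, Finset.mem_filter]
    simp
  have hnod : (EL G σ).Nodup := Finset.nodup_toList _
  have hne : ∀ p ∈ EL G σ, p.1 ≠ p.2 := fun p hp => ((hmem p.1 p.2).1 hp).1.ne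
  have hsw : ∀ u v, (u, v) ∈ EL G σ → (v, u) ∉ EL G σ := by
    intro u v h1 h2
    have h3 := ((hmem u v).1 h1).2.2.2
    have h4 := ((hmem v u).1 h2).2.2.2
    omega
  obtain ⟨N', hR, hpos⟩ := select (EL G σ) hne (-(FM σ ε)) hNs x0 (fun x hxx =>
    pos G d k hd hk hreg σ hc ε hε x (hx.trans hxx) (hx'.imp id fun h => h.trans hxx))
  obtain ⟨hr1, hr2⟩ := Sgn_reach (EL G σ) hnod hne hsw _ _ hR
  -- entries of the fixed part
  have hF0 : ∀ u v, σ u ≠ v → σ v ≠ u → FM σ ε u v = 0 := by
    intro u v h1 h2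
    unfold FM
    by_cases h0 : u = v
    · rw [if_pos h0]
    · rw [if_neg h0, if_neg h1, if_neg h2]
  have hF1 : ∀ u, σ u ≠ u → FM σ ε u (σ u) = ε u := by
    intro u h
    unfold FM
    rw [if_neg (Ne.symm h), if_pos rfl]
  -- symmetry of `N'`
  have hsym : ∀ u v, N' u v = N' v u := by
    intro u v
    by_cases h1 : (u, v) ∈ EL G σ
    · have h2 := (hmem u v).1 h1
      have e1 : (-(FM σ ε)) u v = 0 := by
        rw [Matrix.neg_apply, hF0 u v h2.2.1 h2.2.2.1, neg_zero]
      have e2 : (-(FM σ ε)) v u = 0 := by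
        rw [Matrix.neg_apply, hF0 v u h2.2.2.1 h2.2.1, neg_zero]
      rcases hr2 u v h1 with ⟨h3, h4⟩ | ⟨h3, h4⟩
      · rw [h3, h4, e1, e2]
      · rw [h3, h4, e1, e2]
    · by_cases h1' : (v, u) ∈ EL G σ
      · have h2 := (hmem v u).1 h1'
        have e1 : (-(FM σ ε)) v u = 0 := by
          rw [Matrix.neg_apply, hF0 v u h2.2.1 h2.2.2.1, neg_zero]
        have e2 : (-(FM σ ε)) u v = 0 := by
          rw [Matrix.neg_apply, hF0 u v h2.2.2.1 h2.2.1, neg_zero]
        rcases hr2 v u h1' with ⟨h3, h4⟩ | ⟨h3, h4⟩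
        · rw [h3, h4, e1, e2]
        · rw [h3, h4, e1, e2]
      · rw [hr1 u v h1 h1', hr1 v u h1' h1, Matrix.neg_apply, Matrix.neg_apply, hFs]
  -- fixed edges
  have hfix : ∀ u, σ u ≠ u → N' u (σ u) = -ε u := by
    intro u h
    have h1 : (u, σ u) ∉ EL G σ := fun h2 => ((hmem _ _).1 h2).2.1 rfl
    have h1' : (σ u, u) ∉ EL G σ := fun h2 => ((hmem _ _).1 h2).2.2.1 rfl
    rw [hr1 _ _ h1 h1', Matrix.neg_apply, hF1 u h]
  -- adjacent vertices
  have hadj : ∀ u v, G.Adj u v → N' u v = 1 ∨ N' u v = -1 := by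
    intro u v h
    by_cases h1 : σ u = v
    · have h2 : σ u ≠ u := by
        rw [h1]
        exact h.ne.symm
      have h3 := hfix u h2
      rw [h1] at h3
      rw [h3]
      rcases hε u with h4 | h4
      · right; rw [h4]
      · left; rw [h4, neg_neg]
    · by_cases h1' : σ v = u
      · have h2 : σ v ≠ v := by
          rw [h1']
          exact h.ne
        have h3 := hfix v h2
        rw [h1'] at h3
        rw [hsym, h3]
        rcases hε v with h4 | h4
        · right; rw [h4]
        · left; rw [h4, neg_neg]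
      · have hk1 : key u ≠ key v := by
          intro h2
          have h3 : Fintype.equivFin V u = Fintype.equivFin V v := Fin.ext h2
          exact h.ne ((Fintype.equivFin V).injective h3)
        rcases lt_or_gt_of_ne hk1 with h2 | h2
        · have h3 : (u, v) ∈ EL G σ := (hmem u v).2 ⟨h, h1, h1', h2⟩
          have e1 : (-(FM σ ε)) u v = 0 := by
            rw [Matrix.neg_apply, hF0 u v h1 h1', neg_zero]
          rcases hr2 u v h3 with ⟨h4, _⟩ | ⟨h4, _⟩
          · left; rw [h4, e1, zero_add]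
          · right; rw [h4, e1, zero_sub]
        · have h3 : (v, u) ∈ EL G σ := (hmem v u).2 ⟨h.symm, h1', h1, h2⟩
          have e1 : (-(FM σ ε)) u v = 0 := by
            rw [Matrix.neg_apply, hF0 u v h1 h1', neg_zero]
          rcases hr2 v u h3 with ⟨_, h4⟩ | ⟨_, h4⟩
          · left; rw [h4, e1, zero_add]
          · right; rw [h4, e1, zero_sub]
  -- other pairs
  have hnadj : ∀ u v, ¬ G.Adj u v → N' u v = 0 := by
    intro u v h
    have h1 : (u, v) ∉ EL G σ := fun h2 => h ((hmem _ _).1 h2).1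
    have h1' : (v, u) ∉ EL G σ := fun h2 => h ((hmem _ _).1 h2).1.symm
    rw [hr1 _ _ h1 h1', Matrix.neg_apply, neg_eq_zero]
    by_cases h0 : u = v
    · unfold FM
      rw [if_pos h0]
    · apply hF0
      · intro h2
        have h3 : σ u ≠ u := by
          rw [h2]
          exact Ne.symm h0
        have h4 := hc.adj u h3
        rw [h2] at h4
        exact h h4
      · intro h2
        have h3 : σ v ≠ v := by
          rw [h2]
          exact h0
        have h4 := hc.adj v h3
        rw [h2] at h4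
        exact h h4.symm
  have hsg : ∀ b : Bool, (-sg b = -1) ↔ b = true := by
    intro b
    cases b
    · simp only [sg]
      norm_num
    · simp only [sg]
      norm_num
  refine ⟨fun u v => decide (N' u v = -1), ?_, ?_, ?_⟩
  · intro u v
    rw [Bool.eq_iff_iff, decide_eq_true_iff, decide_eq_true_iff, hsym u v]
  · intro u h
    rw [Bool.eq_iff_iff, decide_eq_true_iff, hfix u h]
    exact hsg (e u)
  · intro x hxx
    have h1 : x • (1 : Matrix V V ℝ) - SA G (fun u v => decide (N' u v = -1)) = N' + x • 1 := by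
      have h2 : SA G (fun u v => decide (N' u v = -1)) = -N' := by
        ext u v
        unfold SA
        by_cases h : G.Adj u v
        · rw [if_pos h, Matrix.neg_apply]
          rcases hadj u v h with h3 | h3
          · have h4 : decide (N' u v = -1) = false := by
              rw [decide_eq_false_iff_not, h3]
              norm_num
            have h5 : sg (decide (N' u v = -1)) = -N' u v := by
              rw [h4, h3]
              rfl
            exact h5
          · have h4 : decide (N' u v = -1) = true := by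
              rw [decide_eq_true_iff, h3]
            have h5 : sg (decide (N' u v = -1)) = -N' u v := by
              rw [h4, h3, neg_neg]
              rfl
            exact h5
        · rw [if_neg h, Matrix.neg_apply, hnadj u v h, neg_zero]
      rw [h2, sub_neg_eq_add, add_comm]
    rw [h1]
    exact hpos x hxx

end Pool.Agent.helper17.NR
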