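import Mathlib
import Pool.Agent.helper17.NR.Defs
import Pool.Agent.helper17.NR.Sgn
import Pool.Agent.helper17.NR.LftA
import Pool.Agent.helper17.NR.LftB
import Pool.Agent.helper17.NR.Bas

set_option autoImplicit false

namespace Pool.Agent.helper17.NR

theorem state_mono (d k : ℕ) (L L' : ℝ) (N : ℕ) (h : L ≤ L') (hs : State d k L N) :
    State d k L' N := by
  obtain ⟨V, i1, i2, G, i3, col, σ, h1, h2, h3, h4, h5, h6⟩ := hs
  exact ⟨V, i1, i2, G, i3, col, σ, h1, h2, h3, h4, h5, fun μ hμ => (h6 μ hμ).imp_right fun h7 => h7.trans h⟩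

theorem Tow_sqrt (d : ℕ) (hd : 3 ≤ d) : 2 * Real.sqrt ((d : ℝ) - 1) ≤ d := by
  have hd' : (3 : ℝ) ≤ d := by exact_mod_cast hd
  have h1 : 0 ≤ (d : ℝ) - 1 := by linarith
  have h2 := Real.sq_sqrt h1
  nlinarith [sq_nonneg (Real.sqrt ((d : ℝ) - 1) - 1)]

theorem Tow_pow_nonneg (d : ℕ) (hd : 3 ≤ d) (x : ℝ) : 0 ≤ 2 * ((d : ℝ) - 1) ^ x := by
  have hd' : (3 : ℝ) ≤ d := by exact_mod_cast hd
  have h1 : 0 ≤ (d : ℝ) - 1 := by linarith
  have := Real.rpow_nonneg h1 x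
  linarith

/-- one step -/
theorem Tow_step (d k' : ℕ) (L x0 : ℝ) (N : ℕ) (hx : x0 ≤ L) (hxd : x0 ≤ d) (V : Type) [Fintype V]
    [DecidableEq V] (G : SimpleGraph V) [DecidableRel G.Adj] (col : V → Bool) (h1 : Fintype.card V = N)
    (h2 : G.Connected) (h3 : G.IsRegularOfDegree d) (h4 : ∀ u v, G.Adj u v → col u ≠ col v)
    (h6 : ∀ μ : ℝ, (∃ f : V → ℝ, f ≠ 0 ∧ Matrix.mulVec (G.adjMatrix ℝ) f = μ • f) →
      |μ| = (d : ℝ) ∨ |μ| ≤ L) (s : V → V → Bool) (hs : ∀ u v, s u v = s v u)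
    (hdet : ∀ x : ℝ, x0 ≤ x → 0 < (x • 1 - SA G s).det)
    (hcyc : ∃ σ' : Equiv.Perm (V × Bool), Cyc (lift G s hs) k' σ') : State d k' L (2 * N) := by
  obtain ⟨σ', hσ⟩ := hcyc
  have hb := signed_bound G s col h4 x0 hdet
  refine ⟨V × Bool, inferInstance, inferInstance, lift G s hs, inferInstance, fun p => col p.1, σ',
    ?_, ?_, lift_regular G d h3 s hs, fun u v huv => h4 u.1 v.1 huv.1, hσ, ?_⟩
  · rw [Fintype.card_prod, Fintype.card_bool, h1, Nat.mul_comm]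
  · refine lift_connected G d h3 h2 s hs fun hf => ?_
    have h7 := hb d hf
    rw [Nat.abs_cast] at h7
    linarith
  · intro μ hμ
    rcases lift_eigen G s hs μ hμ with h7 | h7
    · exact h6 μ h7
    · exact Or.inr ((hb μ h7).le.trans hx)

theorem state_neg (d k : ℕ) (hd : 3 ≤ d) (hk : 3 ≤ k) (L : ℝ) (N : ℕ)
    (hL : 2 * Real.sqrt ((d : ℝ) - 1) ≤ L) (h : State d k L N) : State d (2 * k) L (2 * N) := by
  obtain ⟨V, i1, i2, G, i3, col, σ, h1, h2, h3, h4, h5, h6⟩ := h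
  obtain ⟨e, he⟩ := exists_neg G k hk σ h5
  obtain ⟨s, hs, hse, hdet⟩ := signs G d k hd hk h3 σ h5 e (2 * Real.sqrt ((d : ℝ) - 1)) le_rfl
    (Or.inl he)
  exact Tow_step d (2 * k) L _ N hL (Tow_sqrt d hd) V G col h1 h2 h3 h4 h6 s hs hdet
    (lift_cyc_neg G k hk σ h5 e he s hs hse)

theorem state_pos (d k : ℕ) (hd : 3 ≤ d) (hk : 3 ≤ k) (L : ℝ) (N : ℕ)
    (hL : 2 * Real.sqrt ((d : ℝ) - 1) + 2 * ((d : ℝ) - 1) ^ (-((k : ℝ) - 1) / 2) ≤ L)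
    (hLd : L ≤ d) (h : State d k L N) : State d k L (2 * N) := by
  obtain ⟨V, i1, i2, G, i3, col, σ, h1, h2, h3, h4, h5, h6⟩ := h
  have hp := Tow_pow_nonneg d hd (-((k : ℝ) - 1) / 2)
  obtain ⟨s, hs, hse, hdet⟩ := signs G d k hd hk h3 σ h5 (fun _ => true) L (by linarith) (Or.inr hL)
  exact Tow_step d k L L N le_rfl hLd V G col h1 h2 h3 h4 h6 s hs hdet
    (lift_cyc_pos G k hk σ h5 s hs hse)

theorem Tow_bound (d k : ℕ) (hd : 3 ≤ d) (hk : 16 ≤ k) :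
    2 * Real.sqrt ((d : ℝ) - 1) + 2 * ((d : ℝ) - 1) ^ (-((k : ℝ) - 1) / 2) ≤ d := by
  have hd' : (3 : ℝ) ≤ d := by exact_mod_cast hd
  have hk' : (16 : ℝ) ≤ k := by exact_mod_cast hk
  have h1 : 0 ≤ (d : ℝ) - 1 := by linarith
  have h2 := Real.sq_sqrt h1
  have h3 : (1.4 : ℝ) ≤ Real.sqrt ((d : ℝ) - 1) := by
    apply Real.le_sqrt_of_sq_le
    norm_num
    linarith
  have h4 : ((d : ℝ) - 1) ^ (-((k : ℝ) - 1) / 2) ≤ ((d : ℝ) - 1) ^ (-(7 : ℝ)) :=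
    Real.rpow_le_rpow_of_exponent_le (by linarith) (by linarith)
  have h5 : ((d : ℝ) - 1) ^ (-(7 : ℝ)) ≤ (2 : ℝ) ^ (-(7 : ℝ)) :=
    Real.rpow_le_rpow_of_nonpos (by norm_num) (by linarith) (by norm_num)
  have h6 : (2 : ℝ) ^ (-(7 : ℝ)) = 1 / 128 := by
    rw [Real.rpow_neg (by norm_num)]
    norm_num
  have h7 := mul_nonneg (sub_nonneg.2 h3)
    (sub_nonneg.2 (show (0.6 : ℝ) ≤ Real.sqrt ((d : ℝ) - 1) by linarith))
  have h8 : ((d : ℝ) - 1) ^ (-((k : ℝ) - 1) / 2) ≤ 1 / 128 := (h4.trans h5).trans h6.le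
  nlinarith [h2, h7, h8]

theorem tower (d m n : ℕ) (hd : 3 ≤ d) (hm : 2 ≤ m) (hmn : m ≤ n) :
    State d (2 ^ (m + 2))
      (2 * Real.sqrt ((d : ℝ) - 1) + 2 * ((d : ℝ) - 1) ^ (-(((2 ^ (m + 2) : ℕ) : ℝ) - 1) / 2))
      (2 ^ (n + 1) * d) := by
  have hk16 : 16 ≤ 2 ^ (m + 2) := by
    calc 16 = 2 ^ (2 + 2) := by norm_num
      _ ≤ 2 ^ (m + 2) := Nat.pow_le_pow_right (by norm_num) (by omega)
  have hb := Tow_bound d (2 ^ (m + 2)) hd hk16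
  have hp := Tow_pow_nonneg d hd (-(((2 ^ (m + 2) : ℕ) : ℝ) - 1) / 2)
  set L : ℝ := 2 * Real.sqrt ((d : ℝ) - 1) + 2 * ((d : ℝ) - 1) ^ (-(((2 ^ (m + 2) : ℕ) : ℝ) - 1) / 2)
    with hL
  have hs0 := Real.sqrt_nonneg ((d : ℝ) - 1)
  have h1 : ∀ j : ℕ, State d (2 ^ (j + 2)) L (2 ^ (j + 1) * d) := by
    intro j
    induction j with
    | zero =>
      have h2 := state_mono d 4 0 L (2 * d) (by linarith) (state_base d hd)
      simpa using h2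
    | succ j ih =>
      have h4 : 3 ≤ 2 ^ (j + 2) := by
        calc 3 ≤ 2 ^ (0 + 2) := by norm_num
          _ ≤ 2 ^ (j + 2) := Nat.pow_le_pow_right (by norm_num) (by omega)
      have h5 := state_neg d (2 ^ (j + 2)) hd h4 L _ (by linarith) ih
      have e1 : 2 ^ (j + 1 + 2) = 2 * 2 ^ (j + 2) := by ring
      have e2 : 2 ^ (j + 1 + 1) * d = 2 * (2 ^ (j + 1) * d) := by ring
      rw [e1, e2]
      exact h5
  induction n, hmn using Nat.le_induction with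
  | base => exact h1 m
  | succ n _ ih =>
    have h5 := state_pos d (2 ^ (m + 2)) hd (by omega) L _ hL.symm.le hb ih
    have e2 : 2 ^ (n + 1 + 1) * d = 2 * (2 ^ (n + 1) * d) := by ring
    rw [e2]
    exact h5

end Pool.Agent.helper17.NR
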