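import Mathlib
import Pool.Agent.helper17.NR.Defs
import Pool.Agent.helper17.NR.Bal
import Pool.Agent.helper17.NR.Core
import Pool.Agent.helper17.NR.Tow

/-!
Transfer of the towers to graphs on `Fin N`, choice of the parameters.
-/

set_option autoImplicit false
set_option linter.unusedSectionVars false

namespace Pool.Agent.helper17.NR

variable {V : Type*} [Fintype V] [DecidableEq V]

/-- Everything the tower gives, on `Fin N`. -/
theorem Fin_of_state (d k : ℕ) (hk : 3 ≤ k) (L : ℝ) (N : ℕ) (h : State d k L N) :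
    ∃ (G : SimpleGraph (Fin N)) (_ : DecidableRel G.Adj),
      G.Connected ∧ G.IsRegularOfDegree d ∧ G.Colorable 2 ∧
      (∀ μ : ℝ, (∃ x : Fin N → ℝ, x ≠ 0 ∧ Matrix.mulVec (G.adjMatrix ℝ) x = μ • x) →
        |μ| = (d : ℝ) ∨ |μ| ≤ L) ∧
      (∀ v, ∃ c : ZMod k → Fin N, Function.Injective c ∧ (∀ i, G.Adj (c i) (c (i + 1))) ∧
        (v = c 0 ∨ G.Adj v (c 0))) ∧
      ∀ (v : Fin N) (R : ℝ), (k : ℝ) / 2 + 1 ≤ R →
        ¬ (G.induce {u : Fin N | (G.dist v u : ℝ) ≤ R}).IsTree := by
  obtain ⟨V, _, _, G, hdec, col, σ, hcard, hconn, hreg, hcol, hc, hspec⟩ := h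
  subst hcard
  let e : V ≃ Fin (Fintype.card V) := Fintype.equivFin V
  let G' : SimpleGraph (Fin (Fintype.card V)) := G.comap e.symm
  have hadj : ∀ i j, G'.Adj i j ↔ G.Adj (e.symm i) (e.symm j) := fun i j => Iff.rfl
  let iso : G' ≃g G := ⟨e.symm, by intro a b; exact Iff.rfl⟩
  have hdec' : DecidableRel G'.Adj := fun i j => hdec (e.symm i) (e.symm j)
  let σ' : Equiv.Perm (Fin (Fintype.card V)) := e.permCongr σ
  have hσ' : ∀ i, σ' i = e (σ (e.symm i)) := fun i => rfl
  have hpow : ∀ (j : ℕ) i, (σ' ^ j) i = e ((σ ^ j) (e.symm i)) := by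
    intro j
    induction j with
    | zero => intro i; simp
    | succ j ih =>
      intro i
      rw [pow_succ', Equiv.Perm.mul_apply, ih, hσ', Equiv.symm_apply_apply, pow_succ',
        Equiv.Perm.mul_apply]
  have hne : ∀ i, σ' i ≠ i ↔ σ (e.symm i) ≠ e.symm i := by
    intro i
    rw [hσ', not_iff_not]
    constructor
    · intro h
      exact (Equiv.eq_symm_apply e).mpr h
    · intro h
      rw [h, Equiv.apply_symm_apply]
  have hc' : Cyc G' k σ' := by
    refine ⟨?_, ?_, ?_, ?_⟩
    · intro v hv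
      rw [hadj, hσ', Equiv.symm_apply_apply]
      exact hc.adj _ ((hne v).mp hv)
    · intro v
      rw [hpow, hc.per, Equiv.apply_symm_apply]
    · intro v hv j hj hjk h
      rw [hpow] at h
      exact hc.mini (e.symm v) ((hne v).mp hv) j hj hjk ((Equiv.eq_symm_apply e).mpr h)
    · intro v hv
      have hv' : σ (e.symm v) = e.symm v := by
        by_contra h
        exact (hne v).mpr h hv
      obtain ⟨u, hu, hvu⟩ := hc.near _ hv'
      refine ⟨e u, ?_, ?_⟩
      · rw [hne, Equiv.symm_apply_apply]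
        exact hu
      · rw [hadj, Equiv.symm_apply_apply]
        exact hvu
  have hconn' : G'.Connected := iso.connected_iff.mpr hconn
  refine ⟨G', hdec', hconn', ?_, ?_, ?_, ?_, ?_⟩
  · intro i
    have h1 := iso.degree_eq i
    rw [← h1]
    exact hreg _
  · refine ⟨SimpleGraph.Coloring.mk (fun i => if col (e.symm i) then (0 : Fin 2) else 1) ?_⟩
    intro i j hij
    have h1 := hcol _ _ ((hadj i j).mp hij)
    intro h2
    apply h1
    cases h3 : col (e.symm i) <;> cases h4 : col (e.symm j) <;> simp_all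
  · rintro μ ⟨x, hx0, hx⟩
    apply hspec μ
    refine ⟨fun v => x (e v), ?_, ?_⟩
    · intro h0
      apply hx0
      funext i
      have := congrFun h0 (e.symm i)
      simpa using this
    · funext v
      have h1 := congrFun hx (e v)
      rw [Matrix.mulVec, dotProduct] at h1
      rw [Matrix.mulVec, dotProduct]
      rw [Pi.smul_apply] at h1 ⊢
      rw [← h1]
      apply Fintype.sum_equiv e
      intro w
      rw [SimpleGraph.adjMatrix_apply, SimpleGraph.adjMatrix_apply]
      congr 1
      have h2 : G'.Adj (e v) (e w) ↔ G.Adj v w := by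
        rw [hadj, Equiv.symm_apply_apply, Equiv.symm_apply_apply]
      simp only [h2]
  · intro v
    obtain ⟨u, hu, hvu⟩ : ∃ u, σ' u ≠ u ∧ (v = u ∨ G'.Adj v u) := by
      by_cases h : σ' v = v
      · obtain ⟨u, h1, h2⟩ := hc'.near v h
        exact ⟨u, h1, Or.inr h2⟩
      · exact ⟨v, h, Or.inl rfl⟩
    have : NeZero k := ⟨by omega⟩
    refine ⟨fun i => (σ' ^ (ZMod.val i)) u, ?_, ?_, ?_⟩
    · intro i j hij
      have hi := ZMod.val_lt i
      have hj := ZMod.val_lt j
      apply ZMod.val_injective k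
      rcases Nat.lt_trichotomy (ZMod.val i) (ZMod.val j) with h | h | h
      · exact absurd hij (Core_ne hc' u hu _ _ h hj)
      · exact h
      · exact absurd hij.symm (Core_ne hc' u hu _ _ h hi)
    · intro i
      have hi := ZMod.val_lt i
      have h1 : (σ' ^ (ZMod.val (i + 1))) u = (σ' ^ (ZMod.val i + 1)) u := by
        rw [ZMod.val_add]
        have h2 : ZMod.val (1 : ZMod k) = 1 := by
          have : Fact (1 < k) := ⟨by omega⟩
          exact ZMod.val_one k
        rw [h2]
        rcases Nat.lt_or_eq_of_le (Nat.succ_le_of_lt hi) with h3 | h3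
        · rw [Nat.mod_eq_of_lt h3]
        · have h4 : ZMod.val i + 1 = k := h3
          rw [h4, Nat.mod_self, hc'.per, pow_zero, Equiv.Perm.one_apply]
      show G'.Adj ((σ' ^ (ZMod.val i)) u) ((σ' ^ (ZMod.val (i + 1))) u)
      rw [h1]
      exact Bal_adj hc' hu _
    · show v = (σ' ^ (ZMod.val (0 : ZMod k))) u ∨ G'.Adj v ((σ' ^ (ZMod.val (0 : ZMod k))) u)
      rw [ZMod.val_zero, pow_zero, Equiv.Perm.one_apply]
      exact hvu
  · intro v R hR
    exact ball_not_tree G' k hk σ' hc' hconn' v R hR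

end Pool.Agent.helper17.NR
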